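import Mathlib
import Pool.Agent.Helper71.SDX.Defs

/-!
# SDX, log-free version: functions of bounded degree on `[b]^m`
-/

set_option autoImplicit false

open scoped BigOperators Matrix

namespace SDX

/-- indicator of the `S` whose graph contains `α` -/
def inc {m b : ℕ} (α : Finset (Fin m × Fin b)) (S : Fin m → Fin b) : ℝ :=
  if ∀ e ∈ α, S e.1 = e.2 then 1 else 0

/-- functions of degree at most `q` on `[b]^m` -/
def DegS (m b q : ℕ) : Submodule ℝ ((Fin m → Fin b) → ℝ) :=
  Submodule.span ℝ {f | ∃ α : Finset (Fin m × Fin b), α.card ≤ q ∧ f = inc α}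

end SDX
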