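import Mathlib
import Pool.Agent.Helper71.SDX.Defs
import Pool.Agent.Helper71.SDX.Cube
import Pool.Agent.Helper97.SDX.DegS

/-!
# SDX, log-free version: random restriction of families of degree `q` in `S`
-/

set_option autoImplicit false

open scoped BigOperators Matrix

namespace SDX

namespace h97

/-- Moebius transform on finite sets -/
def mu {m : ℕ} (F : Finset (Fin m) → ℝ) (K : Finset (Fin m)) : ℝ :=
  ∑ J ∈ K.powerset, (-1) ^ (K.card + J.card) * F J

theorem mu_insert {m : ℕ} (F : Finset (Fin m) → ℝ) (j : Fin m) (K : Finset (Fin m))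
    (hj : j ∉ K) : mu F (insert j K) = mu (fun J => F (insert j J)) K - mu F K := by
  rw [mu, mu, mu, Finset.sum_powerset_insert hj, Finset.card_insert_of_notMem hj, add_comm,
    sub_eq_add_neg, ← Finset.sum_neg_distrib]
  congr 1
  · apply Finset.sum_congr rfl
    intro J hJ
    have : j ∉ J := fun h => hj (Finset.mem_powerset.mp hJ h)
    rw [Finset.card_insert_of_notMem this,
      show K.card + 1 + (J.card + 1) = (K.card + J.card) + 2 by ring, pow_add]
    norm_num
  · apply Finset.sum_congr rfl
    intro J _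
    rw [show K.card + 1 + J.card = (K.card + J.card) + 1 by ring, pow_succ]
    ring

theorem sum_mu {m : ℕ} (A : Finset (Fin m)) : ∀ F : Finset (Fin m) → ℝ,
    ∑ K ∈ A.powerset, mu F K = F A := by
  induction A using Finset.induction_on with
  | empty =>
    intro F
    simp [mu]
  | insert j A hj ih =>
    intro F
    rw [Finset.sum_powerset_insert hj, ← Finset.sum_add_distrib]
    rw [← ih (fun J => F (insert j J))]
    apply Finset.sum_congr rfl
    intro K hK
    have : j ∉ K := fun h => hj (Finset.mem_powerset.mp hK h)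
    rw [mu_insert F j K this]
    ring

/-- the coefficients of the interpolation -/
def cf (m q : ℕ) (J : Finset (Fin m)) : ℝ :=
  ∑ K ∈ (Finset.univ : Finset (Finset (Fin m))).filter (fun K => K.card ≤ q ∧ J ⊆ K),
    (-1) ^ (K.card + J.card)

theorem interp {m : ℕ} (q : ℕ) (A : Finset (Fin m)) (hA : A.card ≤ q)
    (F : Finset (Fin m) → ℝ) (hF : ∀ J, F J = F (J ∩ A)) :
    F Finset.univ = ∑ J, cf m q J * F J := by
  have h1 : ∑ J, cf m q J * F J
      = ∑ K ∈ (Finset.univ : Finset (Finset (Fin m))).filter (fun K => K.card ≤ q), mu F K := by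
    simp only [cf, mu, Finset.sum_mul, Finset.sum_filter]
    rw [Finset.sum_comm]
    apply Finset.sum_congr rfl
    intro K _
    by_cases hK : K.card ≤ q
    · simp only [hK, true_and, if_true, ite_mul, zero_mul]
      rw [← Finset.sum_filter]
      apply Finset.sum_congr
      · ext J
        simp
      · intro J _
        rfl
    · simp [hK]
  have h2 : ∀ K : Finset (Fin m), ¬ K ⊆ A → mu F K = 0 := by
    intro K hK
    obtain ⟨j, hj, hjA⟩ := Finset.not_subset.mp hK
    have hK' : K = insert j (K.erase j) := (Finset.insert_erase hj).symm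
    rw [hK', mu_insert F j _ (Finset.notMem_erase j K)]
    have : (fun J => F (insert j J)) = F := by
      funext J
      rw [hF (insert j J), hF J]
      congr 1
      rw [Finset.insert_inter_of_notMem hjA]
    rw [this, sub_self]
  rw [h1, hF Finset.univ, Finset.univ_inter, ← sum_mu A F]
  apply Finset.sum_subset_zero_on_sdiff
  · intro K hK
    rw [Finset.mem_filter]
    exact ⟨Finset.mem_univ _, (Finset.card_le_card (Finset.mem_powerset.mp hK)).trans hA⟩
  · intro K hK
    apply h2
    rw [Finset.mem_sdiff, Finset.mem_powerset] at hK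
    exact hK.2
  · intro K _
    rfl

theorem cf_zero {m q : ℕ} {J : Finset (Fin m)} (hJ : q < J.card) : cf m q J = 0 := by
  rw [cf, Finset.filter_eq_empty_iff.mpr, Finset.sum_empty]
  intro K _ h
  exact absurd ((Finset.card_le_card h.2).trans h.1) (by omega)

theorem cf_abs {m q : ℕ} (J : Finset (Fin m)) : |cf m q J| ≤ 2 ^ m := by
  rw [cf]
  refine (Finset.abs_sum_le_sum_abs _ _).trans ?_
  have : ∀ K ∈ (Finset.univ : Finset (Finset (Fin m))).filter (fun K => K.card ≤ q ∧ J ⊆ K),
      |(-1 : ℝ) ^ (K.card + J.card)| = 1 := by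
    intro K _
    rw [abs_pow, abs_neg, abs_one, one_pow]
  rw [Finset.sum_congr rfl this, Finset.sum_const, nsmul_eq_mul, mul_one]
  have h := Finset.card_filter_le (Finset.univ : Finset (Finset (Fin m)))
    (fun K => K.card ≤ q ∧ J ⊆ K)
  rw [Finset.card_univ, Fintype.card_finset, Fintype.card_fin] at h
  exact_mod_cast h

/-- take `S` on `J` and `S'` elsewhere -/
def mix {m b : ℕ} (J : Finset (Fin m)) (S S' : Fin m → Fin b) : Fin m → Fin b :=
  fun j => if j ∈ J then S j else S' j

theorem mix_mix {m b : ℕ} (J : Finset (Fin m)) (S S' : Fin m → Fin b) :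
    mix J (mix J S S') (mix J S' S) = S := by
  funext j
  by_cases h : j ∈ J <;> simp [mix, h]

theorem mix_univ {m b : ℕ} (S S' : Fin m → Fin b) : mix Finset.univ S S' = S := by
  funext j
  simp [mix]

theorem inc_mix {m b : ℕ} (α : Finset (Fin m × Fin b)) (S S' : Fin m → Fin b)
    (J : Finset (Fin m)) : inc α (mix J S S') = inc α (mix (J ∩ α.image Prod.fst) S S') := by
  rw [inc, inc]
  apply if_congr _ rfl rfl
  constructor
  · intro h e he
    rw [← h e he]
    have : e.1 ∈ α.image Prod.fst := Finset.mem_image_of_mem _ he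
    simp only [mix, Finset.mem_inter, this, and_true]
  · intro h e he
    rw [← h e he]
    have : e.1 ∈ α.image Prod.fst := Finset.mem_image_of_mem _ he
    simp only [mix, Finset.mem_inter, this, and_true]

theorem interpS {m b q : ℕ} (g : (Fin m → Fin b) → ℝ) (hg : g ∈ DegS m b q)
    (S S' : Fin m → Fin b) : g S = ∑ J, cf m q J * g (mix J S S') := by
  induction hg using Submodule.span_induction with
  | mem g hg =>
    obtain ⟨α, hα, rfl⟩ := hg
    have := interp q (α.image Prod.fst) (Finset.card_image_le.trans hα)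
      (fun J => inc α (mix J S S')) (fun J => inc_mix α S S' J)
    simpa only [mix_univ] using this
  | zero => simp
  | add f g _ _ hf hg =>
    simp only [Pi.add_apply]
    rw [hf, hg, ← Finset.sum_add_distrib]
    apply Finset.sum_congr rfl
    intro J _
    ring
  | smul a g _ hg =>
    simp only [Pi.smul_apply, smul_eq_mul]
    rw [hg, Finset.mul_sum]
    apply Finset.sum_congr rfl
    intro J _
    ring

/-- sets `S` whose graph contains `γ` -/
theorem count_sub {m b : ℕ} (γ : Finset (Fin m × Fin b)) :
    ((Finset.univ.filter (fun S : Fin m → Fin b => ∀ e ∈ γ, S e.1 = e.2)).card : ℝ)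
      * (b : ℝ) ^ γ.card ≤ (b : ℝ) ^ m := by
  by_cases hne : ∃ S₀ : Fin m → Fin b, ∀ e ∈ γ, S₀ e.1 = e.2
  · obtain ⟨S₀, hS₀⟩ := hne
    have hinj : Set.InjOn Prod.fst (γ : Set (Fin m × Fin b)) := by
      intro e he e' he' h
      apply Prod.ext h
      rw [← hS₀ e he, ← hS₀ e' he', h]
    have hcard : (γ.image Prod.fst).card = γ.card := Finset.card_image_of_injOn hinj
    have hset : (Finset.univ.filter (fun S : Fin m → Fin b => ∀ e ∈ γ, S e.1 = e.2))
        ⊆ Fintype.piFinset (fun j => if j ∈ γ.image Prod.fst then {S₀ j} else Finset.univ) := by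
      intro S hS
      rw [Fintype.mem_piFinset]
      intro j
      by_cases hj : j ∈ γ.image Prod.fst
      · rw [if_pos hj, Finset.mem_singleton]
        obtain ⟨e, he, rfl⟩ := Finset.mem_image.mp hj
        rw [(Finset.mem_filter.mp hS).2 e he, hS₀ e he]
      · rw [if_neg hj]
        exact Finset.mem_univ _
    have h1 := Finset.card_le_card hset
    rw [Fintype.card_piFinset] at h1
    have h2 : ∏ j : Fin m, (if j ∈ γ.image Prod.fst then ({S₀ j} : Finset (Fin b))
        else Finset.univ).card = b ^ (m - γ.card) := by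
      have : ∀ j : Fin m, (if j ∈ γ.image Prod.fst then ({S₀ j} : Finset (Fin b))
          else Finset.univ).card = if j ∈ γ.image Prod.fst then 1 else b := by
        intro j
        split_ifs <;> simp
      rw [Finset.prod_congr rfl (fun j _ => this j), Finset.prod_ite, Finset.prod_const_one,
        one_mul, Finset.prod_const]
      congr 1
      rw [Finset.filter_not, Finset.card_sdiff_of_subset (Finset.filter_subset _ _),
        Finset.card_univ, Fintype.card_fin]
      congr 1
      rw [← hcard]
      congr 1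
      ext j
      simp
    rw [h2] at h1
    have hle : γ.card ≤ m := by
      rw [← hcard]
      simpa using Finset.card_le_univ (γ.image Prod.fst)
    calc ((Finset.univ.filter (fun S : Fin m → Fin b => ∀ e ∈ γ, S e.1 = e.2)).card : ℝ)
          * (b : ℝ) ^ γ.card ≤ ((b ^ (m - γ.card) : ℕ) : ℝ) * (b : ℝ) ^ γ.card := by
            gcongr
      _ = (b : ℝ) ^ m := by
            push_cast
            rw [← pow_add, Nat.sub_add_cancel hle]
  · rw [Finset.filter_eq_empty_iff.mpr]
    · simp only [Finset.card_empty, Nat.cast_zero, zero_mul]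
      positivity
    · intro S _ hS
      exact hne ⟨S, hS⟩

/-- sets `S` whose graph meets `β` in more than `t` points -/
theorem count_bad {m b k : ℕ} (hb : 0 < b) (t : ℕ) (β : Finset (Fin m × Fin b))
    (hβ : β.card ≤ k) :
    ((Finset.univ.filter (fun S : Fin m → Fin b =>
      t < (β.filter (fun e => S e.1 = e.2)).card)).card : ℝ)
      ≤ (b : ℝ) ^ m * ((k.choose (t + 1) : ℝ) / (b : ℝ) ^ (t + 1)) := by
  have hb' : (0 : ℝ) < b := by exact_mod_cast hb
  have hsub : (Finset.univ.filter (fun S : Fin m → Fin b =>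
      t < (β.filter (fun e => S e.1 = e.2)).card))
      ⊆ (β.powersetCard (t + 1)).biUnion
        (fun γ => Finset.univ.filter (fun S : Fin m → Fin b => ∀ e ∈ γ, S e.1 = e.2)) := by
    intro S hS
    rw [Finset.mem_biUnion]
    obtain ⟨γ, hγ, hγc⟩ := Finset.exists_subset_card_eq
      (Nat.succ_le_of_lt (Finset.mem_filter.mp hS).2)
    refine ⟨γ, Finset.mem_powersetCard.mpr ⟨hγ.trans (Finset.filter_subset _ _), hγc⟩, ?_⟩
    rw [Finset.mem_filter]
    exact ⟨Finset.mem_univ _, fun e he => (Finset.mem_filter.mp (hγ he)).2⟩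
  have h1 := (Finset.card_le_card hsub).trans Finset.card_biUnion_le
  calc ((Finset.univ.filter (fun S : Fin m → Fin b =>
      t < (β.filter (fun e => S e.1 = e.2)).card)).card : ℝ)
      ≤ ∑ γ ∈ β.powersetCard (t + 1),
        ((Finset.univ.filter (fun S : Fin m → Fin b => ∀ e ∈ γ, S e.1 = e.2)).card : ℝ) := by
        exact_mod_cast h1
    _ ≤ ∑ γ ∈ β.powersetCard (t + 1), (b : ℝ) ^ m / (b : ℝ) ^ (t + 1) := by
        apply Finset.sum_le_sum
        intro γ hγ
        rw [le_div_iff₀ (by positivity)]
        have := count_sub γ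
        rwa [(Finset.mem_powersetCard.mp hγ).2] at this
    _ = (β.card.choose (t + 1) : ℝ) * ((b : ℝ) ^ m / (b : ℝ) ^ (t + 1)) := by
        rw [Finset.sum_const, Finset.card_powersetCard, nsmul_eq_mul]
    _ ≤ (k.choose (t + 1) : ℝ) * ((b : ℝ) ^ m / (b : ℝ) ^ (t + 1)) := by
        gcongr
    _ = _ := by ring

theorem mix_count {m b : ℕ} (J : Finset (Fin m)) (S S' : Fin m → Fin b)
    (β : Finset (Fin m × Fin b)) :
    (β.filter (fun e => mix J S S' e.1 = e.2)).card
      ≤ J.card + (β.filter (fun e => S' e.1 = e.2)).card := by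
  have hsub : β.filter (fun e => mix J S S' e.1 = e.2)
      ⊆ (J.image (fun j => (j, S j))) ∪ β.filter (fun e => S' e.1 = e.2) := by
    intro e he
    rw [Finset.mem_filter] at he
    rw [Finset.mem_union]
    by_cases h : e.1 ∈ J
    · left
      rw [Finset.mem_image]
      refine ⟨e.1, h, ?_⟩
      have := he.2
      simp only [mix, h, if_true] at this
      exact Prod.ext rfl this
    · right
      rw [Finset.mem_filter]
      refine ⟨he.1, ?_⟩
      have := he.2
      simpa only [mix, h, if_false] using this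
  calc _ ≤ _ := Finset.card_le_card hsub
    _ ≤ _ := Finset.card_union_le _ _
    _ ≤ _ := by
      gcongr
      exact Finset.card_image_le

theorem swap_sum {m b : ℕ} (J : Finset (Fin m)) (f : (Fin m → Fin b) → (Fin m → Fin b) → ℝ) :
    ∑ S, ∑ S', f S S' = ∑ Z, ∑ Z', f (mix J Z Z') (mix J Z' Z) := by
  let e : ((Fin m → Fin b) × (Fin m → Fin b)) ≃ ((Fin m → Fin b) × (Fin m → Fin b)) :=
    { toFun := fun p => (mix J p.1 p.2, mix J p.2 p.1)
      invFun := fun p => (mix J p.1 p.2, mix J p.2 p.1)
      left_inv := fun p => Prod.ext (mix_mix J p.1 p.2) (mix_mix J p.2 p.1)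
      right_inv := fun p => Prod.ext (mix_mix J p.1 p.2) (mix_mix J p.2 p.1) }
  rw [← Fintype.sum_prod_type', ← Fintype.sum_prod_type']
  exact (Equiv.sum_comp e (fun p : (Fin m → Fin b) × (Fin m → Fin b) => f p.1 p.2)).symm

end h97

theorem bad_sum {m b t k q : ℕ} (hb : 0 < b) (hq : q ≤ t) (β : Finset (Fin m × Fin b))
    (hβ : β.card ≤ k) (g : (Fin m → Fin b) → ℝ) (hg : g ∈ DegS m b q) :
    ∑ S ∈ Finset.univ.filter (fun S : Fin m → Fin b =>
        t < (β.filter (fun e => S e.1 = e.2)).card), g S ^ 2
      ≤ 16 ^ m * ((k.choose (t + 1 - q) : ℝ) / (b : ℝ) ^ (t + 1 - q)) * ∑ S, g S ^ 2 := by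
  classical
  have hb' : (0 : ℝ) < b := by exact_mod_cast hb
  set Bad := Finset.univ.filter (fun S : Fin m → Fin b =>
        t < (β.filter (fun e => S e.1 = e.2)).card) with hBad
  set X : ℝ := (k.choose (t + 1 - q) : ℝ) / (b : ℝ) ^ (t + 1 - q) with hX
  have hX0 : 0 ≤ X := by positivity
  -- Cauchy-Schwarz
  have hcs : ∀ S S', g S ^ 2 ≤ 8 ^ m *
      ∑ J ∈ (Finset.univ : Finset (Finset (Fin m))).filter (fun J => J.card ≤ q),
        g (h97.mix J S S') ^ 2 := by
    intro S S'
    have e1 : g S = ∑ J ∈ (Finset.univ : Finset (Finset (Fin m))).filter (fun J => J.card ≤ q),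
        h97.cf m q J * g (h97.mix J S S') := by
      rw [h97.interpS g hg S S', Finset.sum_filter]
      apply Finset.sum_congr rfl
      intro J _
      split_ifs with h
      · rfl
      · rw [h97.cf_zero (by omega), zero_mul]
    rw [e1]
    refine (Finset.sum_mul_sq_le_sq_mul_sq _ _ _).trans ?_
    apply mul_le_mul_of_nonneg_right _ (Finset.sum_nonneg (fun _ _ => sq_nonneg _))
    calc ∑ J ∈ (Finset.univ : Finset (Finset (Fin m))).filter (fun J => J.card ≤ q),
          h97.cf m q J ^ 2
        ≤ ∑ J ∈ (Finset.univ : Finset (Finset (Fin m))).filter (fun J => J.card ≤ q),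
          (4 : ℝ) ^ m := by
          apply Finset.sum_le_sum
          intro J _
          have := h97.cf_abs (q := q) J
          calc h97.cf m q J ^ 2 = |h97.cf m q J| ^ 2 := (sq_abs _).symm
            _ ≤ (2 ^ m) ^ 2 := by gcongr
            _ = 4 ^ m := by rw [← pow_mul, mul_comm, pow_mul]; norm_num
      _ ≤ ∑ J : Finset (Fin m), (4 : ℝ) ^ m := by
          apply Finset.sum_le_sum_of_subset_of_nonneg (Finset.filter_subset _ _)
          intro _ _ _
          positivity
      _ = 8 ^ m := by
          rw [Finset.sum_const, Finset.card_univ, Fintype.card_finset, Fintype.card_fin,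
            nsmul_eq_mul]
          push_cast
          rw [← mul_pow]
          norm_num
  -- for a fixed `J`
  have hJ : ∀ J ∈ (Finset.univ : Finset (Finset (Fin m))).filter (fun J => J.card ≤ q),
      ∑ S ∈ Bad, ∑ S', g (h97.mix J S S') ^ 2 ≤ (b : ℝ) ^ m * X * ∑ Z, g Z ^ 2 := by
    intro J hJ
    have hJq := (Finset.mem_filter.mp hJ).2
    have e2 : ∑ S ∈ Bad, ∑ S', g (h97.mix J S S') ^ 2
        = ∑ Z, ∑ Z', if h97.mix J Z Z' ∈ Bad then g Z ^ 2 else 0 := by
      have : ∑ S ∈ Bad, ∑ S', g (h97.mix J S S') ^ 2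
          = ∑ S, ∑ S', if S ∈ Bad then g (h97.mix J S S') ^ 2 else 0 := by
        have h3 : ∀ S, (∑ S', if S ∈ Bad then g (h97.mix J S S') ^ 2 else 0)
            = if S ∈ Bad then ∑ S', g (h97.mix J S S') ^ 2 else 0 := by
          intro S
          by_cases h : S ∈ Bad
          · simp only [h, if_true]
          · simp only [h, if_false, Finset.sum_const_zero]
        rw [Finset.sum_congr rfl (fun S _ => h3 S), Finset.sum_ite_mem, Finset.univ_inter]
      rw [this, h97.swap_sum J]
      apply Finset.sum_congr rfl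
      intro Z _
      apply Finset.sum_congr rfl
      intro Z' _
      rw [h97.mix_mix]
    rw [e2, Finset.mul_sum]
    apply Finset.sum_le_sum
    intro Z _
    have hcount := h97.count_bad hb (t - q) β hβ
    rw [show t - q + 1 = t + 1 - q by omega, ← hX] at hcount
    calc ∑ Z', (if h97.mix J Z Z' ∈ Bad then g Z ^ 2 else 0)
        ≤ ∑ Z' : Fin m → Fin b,
            (if t - q < (β.filter (fun e => Z' e.1 = e.2)).card then g Z ^ 2 else 0) := by
          apply Finset.sum_le_sum
          intro Z' _
          by_cases h : h97.mix J Z Z' ∈ Bad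
          · have h1 := (Finset.mem_filter.mp h).2
            have h2 := h97.mix_count J Z Z' β
            rw [if_pos h, if_pos (by omega)]
          · rw [if_neg h]
            split_ifs
            · positivity
            · exact le_rfl
      _ = ((Finset.univ.filter (fun S : Fin m → Fin b =>
            t - q < (β.filter (fun e => S e.1 = e.2)).card)).card : ℝ) * g Z ^ 2 := by
          rw [← Finset.sum_filter, Finset.sum_const, nsmul_eq_mul]
      _ ≤ (b : ℝ) ^ m * X * g Z ^ 2 := by
          gcongr
  have hbm : (0 : ℝ) < (b : ℝ) ^ m := by positivity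
  have key : (b : ℝ) ^ m * ∑ S ∈ Bad, g S ^ 2
      ≤ (b : ℝ) ^ m * (16 ^ m * X * ∑ S, g S ^ 2) := by
    calc (b : ℝ) ^ m * ∑ S ∈ Bad, g S ^ 2 = ∑ S ∈ Bad, ∑ S' : Fin m → Fin b, g S ^ 2 := by
          rw [Finset.mul_sum]
          apply Finset.sum_congr rfl
          intro S _
          rw [Finset.sum_const, Finset.card_univ, Fintype.card_fun, Fintype.card_fin,
            Fintype.card_fin, nsmul_eq_mul]
          push_cast
          rfl
      _ ≤ ∑ S ∈ Bad, ∑ S' : Fin m → Fin b, 8 ^ m *
          ∑ J ∈ (Finset.univ : Finset (Finset (Fin m))).filter (fun J => J.card ≤ q),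
            g (h97.mix J S S') ^ 2 := by
          apply Finset.sum_le_sum
          intro S _
          apply Finset.sum_le_sum
          intro S' _
          exact hcs S S'
      _ = 8 ^ m * ∑ J ∈ (Finset.univ : Finset (Finset (Fin m))).filter (fun J => J.card ≤ q),
          ∑ S ∈ Bad, ∑ S' : Fin m → Fin b, g (h97.mix J S S') ^ 2 := by
          simp only [← Finset.mul_sum]
          congr 1
          have h4 : ∀ S, ∑ S' : Fin m → Fin b,
              ∑ J ∈ (Finset.univ : Finset (Finset (Fin m))).filter (fun J => J.card ≤ q),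
                g (h97.mix J S S') ^ 2
              = ∑ J ∈ (Finset.univ : Finset (Finset (Fin m))).filter (fun J => J.card ≤ q),
                ∑ S' : Fin m → Fin b, g (h97.mix J S S') ^ 2 := fun S => Finset.sum_comm
          rw [Finset.sum_congr rfl (fun S _ => h4 S), Finset.sum_comm]
      _ ≤ 8 ^ m * ∑ J ∈ (Finset.univ : Finset (Finset (Fin m))).filter (fun J => J.card ≤ q),
          ((b : ℝ) ^ m * X * ∑ Z, g Z ^ 2) := by
          apply mul_le_mul_of_nonneg_left _ (by positivity)
          exact Finset.sum_le_sum hJ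
      _ ≤ 8 ^ m * ∑ J : Finset (Fin m), ((b : ℝ) ^ m * X * ∑ Z, g Z ^ 2) := by
          apply mul_le_mul_of_nonneg_left _ (by positivity)
          apply Finset.sum_le_sum_of_subset_of_nonneg (Finset.filter_subset _ _)
          intro _ _ _
          positivity
      _ = (b : ℝ) ^ m * (16 ^ m * X * ∑ S, g S ^ 2) := by
          rw [Finset.sum_const, Finset.card_univ, Fintype.card_finset, Fintype.card_fin,
            nsmul_eq_mul]
          push_cast
          rw [show (16 : ℝ) = 8 * 2 by norm_num, mul_pow]
          ring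
  exact le_of_mul_le_mul_left key hbm

theorem restrict_avg2 {m b t k q : ℕ} (hb : 0 < b) (hq : q ≤ t)
    (G : (Fin m → Fin b) → (Fin m × Fin b → Bool) → ℝ)
    (hG : ∀ S, G S ∈ Deg (Fin m × Fin b) k) (hG2 : ∀ x, (fun S => G S x) ∈ DegS m b q) :
    ∑ S : Fin m → Fin b, ∑ x, hi t S (G S) x ^ 2
      ≤ 16 ^ m * ((k.choose (t + 1 - q) : ℝ) / (b : ℝ) ^ (t + 1 - q))
        * ∑ S : Fin m → Fin b, ∑ x, G S x ^ 2 := by
  classical
  set X : ℝ := 16 ^ m * ((k.choose (t + 1 - q) : ℝ) / (b : ℝ) ^ (t + 1 - q)) with hX
  have hX0 : 0 ≤ X := by positivity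
  -- the coefficients are of degree `q` in `S`
  have hc : ∀ β, (fun S => coef β (G S)) ∈ DegS m b q := by
    intro β
    have : (fun S => coef β (G S))
        = ∑ x : Fin m × Fin b → Bool, (chr β x / 2 ^ Fintype.card (Fin m × Fin b)) •
          (fun S => G S x) := by
      funext S
      rw [Finset.sum_apply, coef, Finset.sum_div]
      apply Finset.sum_congr rfl
      intro x _
      simp only [Pi.smul_apply, smul_eq_mul]
      ring
    rw [this]
    apply Submodule.sum_mem
    intro x _
    exact Submodule.smul_mem _ _ (hG2 x)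
  have hhi : ∀ S, ∑ x, hi t S (G S) x ^ 2 = 2 ^ Fintype.card (Fin m × Fin b) *
      ∑ β, if t < (β.filter (fun e => S e.1 = e.2)).card then coef β (G S) ^ 2 else 0 := by
    intro S
    rw [parseval]
    congr 1
    apply Finset.sum_congr rfl
    intro β _
    have : coef β (hi t S (G S))
        = if t < (β.filter (fun e => S e.1 = e.2)).card then coef β (G S) else 0 := by
      have e1 : hi t S (G S) = fun x => ∑ α ∈ Finset.univ.filter
        (fun α : Finset (Fin m × Fin b) => t < (α.filter (fun e => S e.1 = e.2)).card),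
          coef α (G S) * chr α x := rfl
      rw [e1, coef]
      simp only [Finset.sum_mul]
      rw [Finset.sum_comm, Finset.sum_div]
      have e2 : ∀ α, (∑ x, coef α (G S) * chr α x * chr β x)
          / 2 ^ Fintype.card (Fin m × Fin b) = coef α (G S) * coef β (chr α) := by
        intro α
        generalize coef α (G S) = a
        rw [coef, mul_div_assoc', Finset.mul_sum]
        congr 1
        apply Finset.sum_congr rfl
        intro x _
        ring
      rw [Finset.sum_congr rfl (fun α _ => e2 α)]
      simp only [coef_chr, mul_ite, mul_one, mul_zero, eq_comm (a := β)]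
      rw [Finset.sum_ite_eq']
      simp only [Finset.mem_filter, Finset.mem_univ, true_and]
    rw [this]
    split_ifs <;> simp
  have hall : ∀ S, ∑ x, G S x ^ 2 = 2 ^ Fintype.card (Fin m × Fin b) *
      ∑ β, coef β (G S) ^ 2 := fun S => parseval (G S)
  rw [Finset.sum_congr rfl (fun S _ => hhi S), Finset.sum_congr rfl (fun S _ => hall S),
    ← Finset.mul_sum, ← Finset.mul_sum, mul_left_comm]
  apply mul_le_mul_of_nonneg_left _ (by positivity)
  have hcomm : ∑ S, ∑ β, coef β (G S) ^ 2 = ∑ β, ∑ S, coef β (G S) ^ 2 := Finset.sum_comm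
  rw [hcomm, Finset.sum_comm, Finset.mul_sum]
  apply Finset.sum_le_sum
  intro β _
  by_cases hβ : β.card ≤ k
  · rw [← Finset.sum_filter]
    exact bad_sum hb hq β hβ _ (hc β)
  · have : ∀ S, coef β (G S) = 0 := fun S => coef_eq_zero (hG S) (by omega)
    simp [this]

end SDX
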