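import Mathlib
import Pool.Agent.Helper71.SDX.Defs
import Pool.Agent.Helper71.SDX.Pd
import Pool.Agent.Helper71.SDX.Cube

/-!
# SDX module B1: the pseudo-density parity / (sum of the signs)
-/

set_option autoImplicit false

open scoped BigOperators Matrix

namespace SDX

namespace h97

/-- sum over the cube of parity / (t + sum of the signs) -/
theorem sum_inv (m : ℕ) : ∀ t : ℝ, (∀ j : ℕ, j ≤ m → t + m - 2 * j ≠ 0) →
    ∑ z : Fin m → Bool, chr Finset.univ z / (t + ssum z)
      = (-2) ^ m * m.factorial / ∏ j ∈ Finset.range (m + 1), (t + m - 2 * j) := by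
  induction m with
  | zero =>
    intro t ht
    simp [chr, ssum]
  | succ m ih =>
    intro t ht
    have h1 : ∀ j : ℕ, j ≤ m → (t + 1) + m - 2 * j ≠ 0 := by
      intro j hj h
      apply ht j (by omega)
      push_cast
      linarith
    have h2 : ∀ j : ℕ, j ≤ m → (t - 1) + m - 2 * j ≠ 0 := by
      intro j hj h
      apply ht (j + 1) (by omega)
      push_cast
      linarith
    have hsplit : ∑ z : Fin (m + 1) → Bool, chr Finset.univ z / (t + ssum z)
        = ∑ z : Fin m → Bool, chr Finset.univ z / ((t + 1) + ssum z)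
          - ∑ z : Fin m → Bool, chr Finset.univ z / ((t - 1) + ssum z) := by
      rw [← (Fin.consEquiv (fun _ : Fin (m + 1) => Bool)).sum_comp, Fintype.sum_prod_type]
      simp only [Fintype.sum_bool, Fin.consEquiv_apply, chr, ssum, Fin.prod_univ_succ,
        Fin.sum_univ_succ, Fin.cons_zero, Fin.cons_succ]
      simp only [sg, if_true, Bool.false_eq_true, if_false]
      rw [add_comm, sub_eq_add_neg, ← Finset.sum_neg_distrib]
      congr 1
      · apply Finset.sum_congr rfl
        intro z _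
        rw [one_mul, add_assoc]
      · apply Finset.sum_congr rfl
        intro z _
        rw [neg_one_mul, neg_div, sub_eq_add_neg t 1, add_assoc]
    rw [hsplit, ih _ h1, ih _ h2]
    have p1 : ∏ j ∈ Finset.range (m + 1 + 1), (t + ((m + 1 : ℕ) : ℝ) - 2 * j)
        = (∏ j ∈ Finset.range (m + 1), ((t + 1) + m - 2 * j)) * (t - (m + 1)) := by
      rw [Finset.prod_range_succ]
      congr 1
      · apply Finset.prod_congr rfl
        intro j _
        push_cast
        ring
      · push_cast
        ring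
    have p2 : ∏ j ∈ Finset.range (m + 1 + 1), (t + ((m + 1 : ℕ) : ℝ) - 2 * j)
        = (∏ j ∈ Finset.range (m + 1), ((t - 1) + m - 2 * j)) * (t + (m + 1)) := by
      rw [Finset.prod_range_succ']
      congr 1
      · apply Finset.prod_congr rfl
        intro j _
        push_cast
        ring
      · push_cast
        ring
    set A := ∏ j ∈ Finset.range (m + 1), ((t + 1) + m - 2 * j) with hA
    set B := ∏ j ∈ Finset.range (m + 1), ((t - 1) + m - 2 * j) with hB
    have hA0 : A ≠ 0 := by
      rw [hA, Finset.prod_ne_zero_iff]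
      intro j hj
      exact h1 j (by simpa [Nat.lt_succ_iff] using hj)
    have hB0 : B ≠ 0 := by
      rw [hB, Finset.prod_ne_zero_iff]
      intro j hj
      exact h2 j (by simpa [Nat.lt_succ_iff] using hj)
    have hm1 : t - (m + 1) ≠ 0 := by
      have := ht (m + 1) le_rfl
      intro h
      apply this
      push_cast
      linarith
    have hm2 : t + (m + 1) ≠ 0 := by
      have := ht 0 (by omega)
      intro h
      apply this
      push_cast
      linarith
    have e1 : A * (t - (m + 1)) = B * (t + (m + 1)) := by rw [← p1, p2]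
    rw [p1, Nat.factorial_succ]
    have hAB : 1 / A - 1 / B = -2 * (m + 1) / (A * (t - (m + 1))) := by
      have : (1 : ℝ) / A = (t - (m + 1)) / (A * (t - (m + 1))) := by
        field_simp
      rw [this, e1]
      field_simp
      ring
    push_cast
    calc (-2 : ℝ) ^ m * m.factorial / A - (-2 : ℝ) ^ m * m.factorial / B
        = (-2 : ℝ) ^ m * m.factorial * (1 / A - 1 / B) := by ring
      _ = (-2 : ℝ) ^ (m + 1) * ((m + 1) * m.factorial) / (A * (t - (m + 1))) := by
          rw [hAB, pow_succ]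
          ring

/-- the product of `m - 2 j` -/
theorem prod_bd (k : ℕ) :
    0 < (∏ j ∈ Finset.range (2 * k + 1 + 1), ((2 * k + 1 : ℕ) - 2 * j : ℝ)) ^ 2 ∧
    (∏ j ∈ Finset.range (2 * k + 1 + 1), ((2 * k + 1 : ℕ) - 2 * j : ℝ)) ^ 2
      ≤ (2 * k + 1) * ((2 * k + 1).factorial : ℝ) ^ 2 := by
  induction k with
  | zero =>
    norm_num [Finset.prod_range_succ]
  | succ k ih =>
    have e : ∏ j ∈ Finset.range (2 * (k + 1) + 1 + 1), ((2 * (k + 1) + 1 : ℕ) - 2 * j : ℝ)
        = -(2 * k + 3) ^ 2
          * ∏ j ∈ Finset.range (2 * k + 1 + 1), ((2 * k + 1 : ℕ) - 2 * j : ℝ) := by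
      rw [show 2 * (k + 1) + 1 + 1 = (2 * k + 1 + 1 + 1) + 1 by ring, Finset.prod_range_succ',
        Finset.prod_range_succ]
      have : ∏ j ∈ Finset.range (2 * k + 1 + 1),
          ((2 * (k + 1) + 1 : ℕ) - 2 * ((j + 1 : ℕ) : ℝ) : ℝ)
          = ∏ j ∈ Finset.range (2 * k + 1 + 1), ((2 * k + 1 : ℕ) - 2 * j : ℝ) := by
        apply Finset.prod_congr rfl
        intro j _
        push_cast
        ring
      rw [this]
      push_cast
      ring
    rw [e, mul_pow]
    set a := (∏ j ∈ Finset.range (2 * k + 1 + 1), ((2 * k + 1 : ℕ) - 2 * j : ℝ)) ^ 2 with ha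
    obtain ⟨h0, h1⟩ := ih
    have hk : (0 : ℝ) ≤ k := Nat.cast_nonneg k
    refine ⟨mul_pos (by rw [neg_sq]; positivity) h0, ?_⟩
    have hf : ((2 * (k + 1) + 1).factorial : ℝ)
        = (2 * k + 3) * (2 * k + 2) * ((2 * k + 1).factorial : ℝ) := by
      rw [show 2 * (k + 1) + 1 = (2 * k + 1 + 1) + 1 by ring, Nat.factorial_succ,
        Nat.factorial_succ]
      push_cast
      ring
    rw [hf]
    push_cast
    set F := ((2 * k + 1).factorial : ℝ) ^ 2 with hF
    have hF0 : 0 ≤ F := by positivity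
    calc (-(2 * (k : ℝ) + 3) ^ 2) ^ 2 * a ≤ (-(2 * (k : ℝ) + 3) ^ 2) ^ 2 * ((2 * k + 1) * F) := by
          gcongr
      _ = (2 * k + 3) ^ 3 * F * ((2 * k + 3) * (2 * k + 1)) := by ring
      _ ≤ (2 * k + 3) ^ 3 * F * (2 * k + 2) ^ 2 := by
          gcongr
          nlinarith
      _ = (2 * (k + 1) + 1) * ((2 * k + 3) * (2 * k + 2) * ((2 * k + 1).factorial : ℝ)) ^ 2 := by
          rw [hF]
          ring

theorem sum_ge (m : ℕ) (hm : Odd m) :
    (∑ z : Fin m → Bool, chr Finset.univ z / ssum z) ≠ 0 ∧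
    (2 : ℝ) ^ m ≤ Real.sqrt m * |∑ z : Fin m → Bool, chr Finset.univ z / ssum z| := by
  obtain ⟨k, rfl⟩ := hm
  have h := sum_inv (2 * k + 1) 0 (by
    intro j hj h
    have h' : ((2 * k + 1 : ℕ) : ℝ) = ((2 * j : ℕ) : ℝ) := by
      push_cast
      push_cast at h
      linarith
    have := Nat.cast_injective h'
    omega)
  simp only [zero_add] at h
  rw [h]
  obtain ⟨h0, h1⟩ := prod_bd k
  set a := ∏ j ∈ Finset.range (2 * k + 1 + 1), ((2 * k + 1 : ℕ) - 2 * j : ℝ) with ha
  have ha0 : a ≠ 0 := by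
    intro h
    rw [h] at h0
    norm_num at h0
  have hfac : (0 : ℝ) < (2 * k + 1).factorial := by positivity
  constructor
  · have : (-2 : ℝ) ^ (2 * k + 1) ≠ 0 := pow_ne_zero _ (by norm_num)
    exact div_ne_zero (mul_ne_zero this hfac.ne') ha0
  · rw [abs_div, abs_mul, abs_pow, abs_neg, abs_two, abs_of_pos hfac]
    have hle : |a| ≤ Real.sqrt (2 * k + 1 : ℕ) * (2 * k + 1).factorial := by
      apply abs_le_of_sq_le_sq
      · rw [mul_pow, Real.sq_sqrt (by positivity)]
        push_cast
        exact h1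
      · positivity
    rw [← mul_div_assoc, le_div_iff₀ (abs_pos.mpr ha0)]
    calc (2 : ℝ) ^ (2 * k + 1) * |a|
        ≤ 2 ^ (2 * k + 1) * (Real.sqrt (2 * k + 1 : ℕ) * (2 * k + 1).factorial) := by gcongr
      _ = Real.sqrt (2 * k + 1 : ℕ) * (2 ^ (2 * k + 1) * (2 * k + 1).factorial) := by ring

theorem chr_abs {ι : Type} (α : Finset ι) (x : ι → Bool) : |chr α x| = 1 := by
  rw [chr, Finset.abs_prod]
  apply Finset.prod_eq_one
  intro i _
  rw [sg]
  split_ifs <;> simp

theorem ssum_abs {m : ℕ} (hm : Odd m) (y : Fin m → Bool) : 1 ≤ |ssum y| := by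
  have h : ssum y = ((m : ℤ) - 2 * ((Finset.univ.filter (fun i => y i = true)).card : ℤ) : ℤ) := by
    have : ∀ i, sg (y i) = 1 - 2 * (if y i = true then (1 : ℝ) else 0) := by
      intro i
      rw [sg]
      split_ifs <;> norm_num
    rw [ssum, Finset.sum_congr rfl (fun i _ => this i), Finset.sum_sub_distrib,
      ← Finset.mul_sum, Finset.sum_boole]
    simp
  rw [h, ← Int.cast_abs]
  have : 1 ≤ |(m : ℤ) - 2 * ((Finset.univ.filter (fun i => y i = true)).card : ℤ)| := by
    apply Int.one_le_abs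
    intro h0
    obtain ⟨k, rfl⟩ := hm
    push_cast at h0
    omega
  exact_mod_cast this

theorem ssum_ne {m : ℕ} (hm : Odd m) (y : Fin m → Bool) : ssum y ≠ 0 := by
  intro h
  have := ssum_abs hm y
  rw [h, abs_zero] at this
  linarith

/-- the parity is orthogonal to functions of degree less than `m` -/
theorem orth (m : ℕ) (hm : 0 < m) (g : (Fin m → Bool) → ℝ) (hg : g ∈ Deg (Fin m) (m - 1)) :
    ∑ y, chr Finset.univ y * g y = 0 := by
  have h := coef_eq_zero hg (α := Finset.univ) (by rw [Finset.card_univ, Fintype.card_fin]; omega)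
  rw [coef, div_eq_zero_iff] at h
  rcases h with h | h
  · rw [← h]
    apply Finset.sum_congr rfl
    intro y _
    ring
  · exact absurd h (by positivity)

theorem const_mem {ι : Type} (c : ℝ) (k : ℕ) : (fun _ : ι → Bool => c) ∈ Deg ι k := by
  have : (fun _ : ι → Bool => c) = c • chr (∅ : Finset ι) := by
    funext x
    simp [chr]
  rw [this]
  apply Submodule.smul_mem
  apply Submodule.subset_span
  exact ⟨∅, by simp, rfl⟩

theorem ssum_mem {ι : Type} [Fintype ι] : (fun y : ι → Bool => ssum y) ∈ Deg ι 1 := by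
  have : (fun y : ι → Bool => ssum y) = ∑ i : ι, chr {i} := by
    funext y
    simp [ssum, chr]
  rw [this]
  apply Submodule.sum_mem
  intro i _
  apply Submodule.subset_span
  exact ⟨{i}, by simp, rfl⟩

theorem pow_mem {ι : Type} [Fintype ι] (k : ℕ) : (fun y : ι → Bool => ssum y ^ k) ∈ Deg ι k := by
  induction k with
  | zero =>
    simp only [pow_zero]
    exact const_mem 1 0
  | succ k ih =>
    have := mul_mem_Deg ih ssum_mem
    simpa only [pow_succ] using this

theorem poly_mem {ι : Type} [Fintype ι] (G : Polynomial ℝ) (k : ℕ) (hG : G.natDegree ≤ k) :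
    (fun y : ι → Bool => G.eval (ssum y)) ∈ Deg ι k := by
  have : (fun y : ι → Bool => G.eval (ssum y))
      = ∑ j ∈ Finset.range (G.natDegree + 1), G.coeff j • (fun y : ι → Bool => ssum y ^ j) := by
    funext y
    rw [Polynomial.eval_eq_sum_range]
    simp
  rw [this]
  apply Submodule.sum_mem
  intro j hj
  apply Submodule.smul_mem
  exact Deg_mono (by have := Finset.mem_range.mp hj; omega) (pow_mem j)

end h97

/-- B1 -/
theorem pd_bd (m : ℕ) (hm : Odd m) (y : Fin m → Bool) : |pd m y| ≤ 2 * Real.sqrt m := by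
  obtain ⟨h0, h1⟩ := h97.sum_ge m hm
  rw [pd, abs_mul, abs_div, abs_div, h97.chr_abs, abs_pow, abs_two]
  have hs := h97.ssum_abs hm y
  have hS : 0 < |∑ z : Fin m → Bool, chr Finset.univ z / ssum z| := abs_pos.mpr h0
  have e1 : (2 : ℝ) ^ m / |∑ z : Fin m → Bool, chr Finset.univ z / ssum z| ≤ Real.sqrt m := by
    rw [div_le_iff₀ hS]
    exact h1
  have e2 : 1 / |ssum y| ≤ 1 := by
    rw [div_le_one (by linarith)]
    exact hs
  calc (2 : ℝ) ^ m / |∑ z : Fin m → Bool, chr Finset.univ z / ssum z| * (1 / |ssum y|)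
      ≤ Real.sqrt m * 1 := by gcongr
    _ ≤ 2 * Real.sqrt m := by nlinarith [Real.sqrt_nonneg (m : ℝ)]

/-- B1 -/
theorem pd_kill (m : ℕ) (hm : Odd m) (g : (Fin m → Bool) → ℝ) (hg : g ∈ Deg (Fin m) (m - 1)) :
    ∑ y, pd m y * (ssum y * g y) = 0 := by
  have h := h97.orth m hm.pos g hg
  have e : ∀ y : Fin m → Bool, pd m y * (ssum y * g y)
      = (2 ^ m / ∑ z : Fin m → Bool, chr Finset.univ z / ssum z)
        * (chr Finset.univ y * g y) := by
    intro y
    have := h97.ssum_ne hm y
    rw [pd]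
    field_simp
  rw [Finset.sum_congr rfl (fun y _ => e y), ← Finset.mul_sum, h, mul_zero]

/-- B1 -/
theorem pd_exact (m : ℕ) (hm : Odd m) (G : Polynomial ℝ) (hG : G.natDegree ≤ m) :
    ∑ y, pd m y * G.eval (ssum y) = 2 ^ m * G.eval 0 := by
  obtain ⟨h0, h1⟩ := h97.sum_ge m hm
  have hsplit : ∀ y : Fin m → Bool, pd m y * G.eval (ssum y)
      = pd m y * G.eval 0 + pd m y * (ssum y * G.divX.eval (ssum y)) := by
    intro y
    have : G.eval (ssum y) = ssum y * G.divX.eval (ssum y) + G.eval 0 := by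
      conv_lhs => rw [← Polynomial.divX_mul_X_add G]
      rw [Polynomial.eval_add, Polynomial.eval_mul, Polynomial.eval_X, Polynomial.eval_C,
        Polynomial.coeff_zero_eq_eval_zero]
      ring
    rw [this]
    ring
  rw [Finset.sum_congr rfl (fun y _ => hsplit y), Finset.sum_add_distrib,
    pd_kill m hm (fun y => G.divX.eval (ssum y))
      (h97.poly_mem _ _ (by rw [Polynomial.natDegree_divX_eq_natDegree_tsub_one]; omega)),
    add_zero, ← Finset.sum_mul]
  congr 1
  have : ∑ y : Fin m → Bool, pd m y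
      = (2 ^ m / ∑ z : Fin m → Bool, chr Finset.univ z / ssum z)
        * ∑ y : Fin m → Bool, chr Finset.univ y / ssum y := by
    rw [Finset.mul_sum]
    rfl
  rw [this, div_mul_cancel₀ _ h0]

end SDX
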