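import Mathlib
import Pool.Agent.Helper71.SDX.Core
import Pool.Agent.Helper97.SDX.DegS
import Pool.Agent.Helper97.SDX.Restrict2

/-!
# Core argument, log-free version (adapted from helper71's Core)
-/

set_option autoImplicit false

open scoped BigOperators Matrix

namespace SDX

open h71

theorem core2 {m b t q q' K : ℕ} {υ σ ρ : Type} [Fintype υ] [DecidableEq υ] [Fintype σ]
    [DecidableEq σ] [Fintype ρ] [DecidableEq ρ] (hb : 0 < b) (hq' : q' ≤ t)
    (κ θ c H M₀ ε φ B Γ : ℝ) (hκ : 0 < κ) (hθ : 0 < θ) (hc : 0 < c)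
    (hH : 0 ≤ H) (hε : 0 ≤ ε) (hB : 0 < B)
    (D : (Fin m → Bool) → ℝ) (hD : ∀ y, |D y| ≤ κ)
    (hfool : ∀ g ∈ Deg (Fin m) t, 0 ≤ ∑ y, D y * g y ^ 2)
    (h : Polynomial ℝ) (hK : h.natDegree ≤ K)
    (h1 : ∀ l, -κ ≤ l → l ≤ θ → h.eval l ^ 2 ≤ 1) (h2 : ∀ l, 2 * θ ≤ l → H ≤ h.eval l ^ 2)
    (P : (Fin m → Fin b) → Matrix υ υ ℝ) (hP : ∀ S, (P S).PosSemidef)
    (hPtr : ∑ S, (P S).trace ≤ (b : ℝ) ^ m * B)
    (N : (Fin m → Fin b) → Matrix υ σ ℝ) (hN : ∀ i j, (fun S => N S i j) ∈ DegS m b q')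
    (hNI : ∀ v : σ → ℝ, ∑ S, (N S *ᵥ v) ⬝ᵥ (N S *ᵥ v) ≤ (b : ℝ) ^ m * Γ * (v ⬝ᵥ v))
    (hWI : ∀ v : σ → ℝ, ∑ S, (N S *ᵥ v) ⬝ᵥ P S *ᵥ (N S *ᵥ v) ≤ (b : ℝ) ^ m * (v ⬝ᵥ v))
    (U : (Fin m × Fin b → Bool) → Matrix σ ρ ℝ)
    (hU : ∀ i j, (fun x => U x i j) ∈ Deg (Fin m × Fin b) q)
    (Q : (Fin m × Fin b → Bool) → Matrix σ σ ℝ) (hQ : ∀ x, (Q x).PosSemidef)
    (hQU : ∀ x, ∀ v : σ → ℝ, v ⬝ᵥ Q x *ᵥ v ≤ c * ∑ j, (v ᵥ* U x) j ^ 2)
    (hneg : ∀ S, ∑ x, D (rs S x) * (((N S)ᵀ * P S * N S) * Q x).trace ≤ -(2 ^ (m * b) * ε))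
    (htr : ∑ x, (Q x).trace ≤ 2 ^ (m * b) * φ)
    (hU0 : ∑ x, ∑ i, ∑ j, U x i j ^ 2 ≤ 2 ^ (m * b) * M₀)
    (hnum1 : (κ + θ) * M₀ < H / (2 * c) * (ε / 2 - 2 * θ * φ))
    (hnum2 : κ * (1 + 4 * κ / θ) * (2 * B) *
      (16 ^ m * (((K * m + q).choose (t + 1 - q') : ℝ) / (b : ℝ) ^ (t + 1 - q'))) * Γ
        ≤ θ / 4) : False := by
  classical
  set W : (Fin m → Fin b) → Matrix σ σ ℝ := fun S => (N S)ᵀ * P S * N S with hWdef
  have hNP := hN
  have hPN : ∀ S, ∀ v : σ → ℝ, v ⬝ᵥ W S *ᵥ v = (N S *ᵥ v) ⬝ᵥ P S *ᵥ (N S *ᵥ v) := by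
    intro S v
    simp only [hWdef]
    rw [← Matrix.mulVec_mulVec, ← Matrix.mulVec_mulVec, Matrix.dotProduct_mulVec,
      Matrix.vecMul_transpose]
  have hW : ∀ S, (W S).PosSemidef := by
    intro S
    have := (hP S).conjTranspose_mul_mul_same (N S)
    rwa [Matrix.conjTranspose_eq_transpose_of_trivial] at this
  have hWI' : ∀ v : σ → ℝ, ∑ S, v ⬝ᵥ W S *ᵥ v ≤ (b : ℝ) ^ m * (v ⬝ᵥ v) := by
    intro v
    rw [Finset.sum_congr rfl (fun S _ => hPN S v)]
    exact hWI v
  set N₁ : ℝ := (b : ℝ) ^ m with hN₁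
  have hb' : (0 : ℝ) < b := by exact_mod_cast hb
  have hNpos : 0 < N₁ := by positivity
  set η : ℝ := 16 ^ m * (((K * m + q).choose (t + 1 - q') : ℝ) / (b : ℝ) ^ (t + 1 - q')) with hη
  have hηnn : 0 ≤ η := by positivity
  have hcardS : (Fintype.card (Fin m → Fin b) : ℝ) = N₁ := by
    simp [hN₁]
  have hqf : ∀ S, ∀ v : σ → ℝ, 0 ≤ v ⬝ᵥ W S *ᵥ v := fun S v => by
    have := (hW S).dotProduct_mulVec_nonneg v
    simpa using this
  have htrnn : ∀ S, 0 ≤ (P S).trace := fun S => (hP S).trace_nonneg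
  -- good sets
  set G : Finset (Fin m → Fin b) :=
    Finset.univ.filter (fun S => (P S).trace ≤ 2 * B) with hG
  have hGcard : N₁ / 2 ≤ G.card := by
    have h3 : ((Finset.univ.filter (fun S => ¬ (P S).trace ≤ 2 * B)).card : ℝ)
        * (2 * B) ≤ N₁ * B := by
      calc _ = ∑ _S ∈ Finset.univ.filter (fun S => ¬ (P S).trace ≤ 2 * B),
            (2 * B) := by simp
        _ ≤ ∑ S ∈ Finset.univ.filter (fun S => ¬ (P S).trace ≤ 2 * B),
            (P S).trace := Finset.sum_le_sum fun S hS => by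
              have := (Finset.mem_filter.1 hS).2
              linarith
        _ ≤ ∑ S, (P S).trace :=
            Finset.sum_le_univ_sum_of_nonneg htrnn
        _ ≤ _ := hPtr
    have h4 : ((Finset.univ.filter (fun S => ¬ (P S).trace ≤ 2 * B)).card : ℝ)
        ≤ N₁ / 2 := by
      have : ((Finset.univ.filter (fun S => ¬ (P S).trace ≤ 2 * B)).card : ℝ) * 2
          * B ≤ N₁ * B := by linarith
      have := le_of_mul_le_mul_right this hB
      linarith
    have h5 := Finset.card_filter_add_card_filter_not (s := (Finset.univ : Finset (Fin m → Fin b)))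
      (fun S => (P S).trace ≤ 2 * B)
    have h6 : (G.card : ℝ)
        + ((Finset.univ.filter (fun S => ¬ (P S).trace ≤ 2 * B)).card : ℝ) = N₁ := by
      rw [← hcardS, ← Finset.card_univ (α := Fin m → Fin b), ← h5]
      push_cast
      rfl
    linarith
  -- the operator
  set T : (Fin m × Fin b → Bool) → Matrix σ σ ℝ :=
    fun x => (-(1 / N₁)) • ∑ S ∈ G, D (rs S x) • W S with hTdef
  have hTq : ∀ x, ∀ v : σ → ℝ, v ⬝ᵥ T x *ᵥ v
      = -(1 / N₁) * ∑ S ∈ G, D (rs S x) * (v ⬝ᵥ W S *ᵥ v) := by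
    intro x v
    simp only [hTdef, Matrix.smul_mulVec, dotProduct_smul, Matrix.sum_mulVec,
      dotProduct_sum, smul_eq_mul]
  have hTh : ∀ x, (T x).IsHermitian := by
    intro x
    rw [Matrix.IsHermitian, hTdef]
    simp only [Matrix.conjTranspose_smul, Matrix.conjTranspose_sum, star_trivial]
    congr 1
    exact Finset.sum_congr rfl fun S _ => by rw [(hW S).1]
  have hTlow : ∀ x, ∀ v : σ → ℝ, -κ * (v ⬝ᵥ v) ≤ v ⬝ᵥ T x *ᵥ v := by
    intro x v
    rw [hTq]
    have h3 : ∑ S ∈ G, D (rs S x) * (v ⬝ᵥ W S *ᵥ v) ≤ κ * (N₁ * (v ⬝ᵥ v)) := by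
      calc ∑ S ∈ G, D (rs S x) * (v ⬝ᵥ W S *ᵥ v) ≤ ∑ S ∈ G, κ * (v ⬝ᵥ W S *ᵥ v) :=
            Finset.sum_le_sum fun S _ => mul_le_mul_of_nonneg_right
              ((le_abs_self _).trans (hD _)) (hqf S v)
        _ ≤ ∑ S, κ * (v ⬝ᵥ W S *ᵥ v) :=
            Finset.sum_le_univ_sum_of_nonneg fun S => mul_nonneg hκ.le (hqf S v)
        _ = κ * ∑ S, v ⬝ᵥ W S *ᵥ v := by rw [Finset.mul_sum]
        _ ≤ κ * (N₁ * (v ⬝ᵥ v)) := mul_le_mul_of_nonneg_left (hWI' v) hκ.le
    have h4 : 1 / N₁ * ∑ S ∈ G, D (rs S x) * (v ⬝ᵥ W S *ᵥ v) ≤ κ * (v ⬝ᵥ v) := by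
      calc 1 / N₁ * ∑ S ∈ G, D (rs S x) * (v ⬝ᵥ W S *ᵥ v)
          ≤ 1 / N₁ * (κ * (N₁ * (v ⬝ᵥ v))) := mul_le_mul_of_nonneg_left h3 (by positivity)
        _ = κ * (v ⬝ᵥ v) := by field_simp
    linarith
  set R : (Fin m × Fin b → Bool) → Matrix σ ρ ℝ :=
    fun x => (Polynomial.aeval (T x) h) * U x with hR
  have hspec : ∀ x, H / (2 * c) * ((T x * Q x).trace - 2 * θ * (Q x).trace)
      - (κ + θ) * ∑ i, ∑ j, U x i j ^ 2
      ≤ ((R x)ᵀ * (T x * R x)).trace - θ * fro (R x) := fun x =>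
    spectral (T x) (hTh x) κ θ H c (hTlow x) hθ hκ hH hc h h1 h2 (U x) (Q x) (hQ x) (hQU x)
  have hsum := Finset.sum_le_sum fun x (_ : x ∈ (Finset.univ : Finset (Fin m × Fin b → Bool))) =>
    hspec x
  simp only [Finset.sum_sub_distrib, ← Finset.mul_sum] at hsum
  set A : ℝ := ∑ x, fro (R x) with hA
  have hA0 : 0 ≤ A := Finset.sum_nonneg fun x _ => fro_nonneg _
  set V : ℝ := 2 ^ (m * b) with hV
  have hVpos : 0 < V := by positivity
  -- the trace of `T Q`
  have hTQ : V * ε / 2 ≤ ∑ x, (T x * Q x).trace := by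
    have h3 : ∑ x, (T x * Q x).trace
        = -(1 / N₁) * ∑ S ∈ G, ∑ x, D (rs S x) * (W S * Q x).trace := by
      rw [Finset.sum_comm, Finset.mul_sum]
      refine Finset.sum_congr rfl fun x _ => ?_
      simp only [hTdef, Matrix.smul_mul, Matrix.trace_smul, Finset.sum_mul, Matrix.trace_sum,
        smul_eq_mul]
    rw [h3]
    have h4 : ∑ S ∈ G, ∑ x, D (rs S x) * (W S * Q x).trace ≤ ∑ _S ∈ G, -(V * ε) :=
      Finset.sum_le_sum fun S _ => hneg S
    rw [Finset.sum_const, nsmul_eq_mul] at h4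
    have h5 : (G.card : ℝ) * (V * ε) ≤ -∑ S ∈ G, ∑ x, D (rs S x) * (W S * Q x).trace := by
      linarith
    calc V * ε / 2 = 1 / N₁ * (N₁ / 2 * (V * ε)) := by field_simp
      _ ≤ 1 / N₁ * (G.card * (V * ε)) := by gcongr
      _ ≤ 1 / N₁ * (-∑ S ∈ G, ∑ x, D (rs S x) * (W S * Q x).trace) := by gcongr
      _ = _ := by ring
  have hlow1 : θ * A < ∑ x, ((R x)ᵀ * (T x * R x)).trace := by
    have h3 : H / (2 * c) * (V * ε / 2 - 2 * θ * (V * φ))
        ≤ H / (2 * c) * (∑ x, (T x * Q x).trace - 2 * θ * ∑ x, (Q x).trace) := by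
      refine mul_le_mul_of_nonneg_left ?_ (by positivity)
      have := mul_le_mul_of_nonneg_left htr (by positivity : (0 : ℝ) ≤ 2 * θ)
      linarith
    have h4 : (κ + θ) * ∑ x, ∑ i, ∑ j, U x i j ^ 2 ≤ (κ + θ) * (V * M₀) :=
      mul_le_mul_of_nonneg_left hU0 (by positivity)
    have h5 : 0 < V * (H / (2 * c) * (ε / 2 - 2 * θ * φ) - (κ + θ) * M₀) :=
      mul_pos hVpos (by linarith)
    have h6 : V * (H / (2 * c) * (ε / 2 - 2 * θ * φ) - (κ + θ) * M₀)
        = H / (2 * c) * (V * ε / 2 - 2 * θ * (V * φ)) - (κ + θ) * (V * M₀) := by ring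
    linarith
  -- degrees
  have hTdeg : MDeg m T := by
    intro i j
    have : (fun x => T x i j) = ∑ S ∈ G, (-(1 / N₁) * W S i j) • fun x => D (rs S x) := by
      funext x
      simp only [hTdef, Matrix.smul_apply, Matrix.sum_apply, smul_eq_mul, Finset.sum_apply,
        Pi.smul_apply, Finset.mul_sum]
      exact Finset.sum_congr rfl fun S _ => by ring
    rw [this]
    exact Submodule.sum_mem _ fun S _ => Submodule.smul_mem _ _ (rs_mem_Deg S D)
  have hRdeg : MDeg (K * m + q) R := (hTdeg.aeval h hK).mul hU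
  -- upper bound
  set ζ : ℝ := θ / (4 * κ) with hζ
  have hζpos : 0 < ζ := by positivity
  have hCex : ∀ S, ∃ C : Matrix υ υ ℝ, P S = Cᵀ * C := fun S => exists_gram (hP S)
  choose C hC using hCex
  set Hi : (Fin m → Fin b) → (Fin m × Fin b → Bool) → Matrix υ ρ ℝ :=
    fun S x => Matrix.of fun k j => hi t S (fun y => (N S * R y) k j) x with hHi
  have hWR : ∀ S x, ((R x)ᵀ * (W S * R x)).trace = fro (C S * (N S * R x)) := by
    intro S x
    have : W S = (C S * N S)ᵀ * (C S * N S) := by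
      simp only [hWdef]
      rw [Matrix.transpose_mul]
      conv_lhs => rw [hC S]
      simp only [Matrix.mul_assoc]
    rw [this, trace_mul_gram, Matrix.mul_assoc]
  have hone : ∀ S ∈ G, -(κ * (ζ * ∑ x, ((R x)ᵀ * (W S * R x)).trace
      + (1 + 1 / ζ) * (2 * B * ∑ x, fro (Hi S x))))
      ≤ ∑ x, D (rs S x) * ((R x)ᵀ * (W S * R x)).trace := by
    intro S hS
    have hSt : (P S).trace ≤ 2 * B := (Finset.mem_filter.1 hS).2
    have e1 : ∀ x, ((R x)ᵀ * (W S * R x)).trace = ∑ i, ∑ j, (C S * (N S * R x)) i j ^ 2 := by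
      intro x
      exact hWR S x
    have e2 : ∑ x, D (rs S x) * ((R x)ᵀ * (W S * R x)).trace
        = ∑ i, ∑ j, ∑ x, D (rs S x) * (C S * (N S * R x)) i j ^ 2 := by
      simp only [e1, Finset.mul_sum]
      rw [Finset.sum_comm]
      exact Finset.sum_congr rfl fun i _ => Finset.sum_comm
    have e3 : ∑ x, ((R x)ᵀ * (W S * R x)).trace
        = ∑ i, ∑ j, ∑ x, (C S * (N S * R x)) i j ^ 2 := by
      simp only [e1]
      rw [Finset.sum_comm]
      exact Finset.sum_congr rfl fun i _ => Finset.sum_comm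
    have e4 : ∀ i j x, hi t S (fun y => (C S * (N S * R y)) i j) x = (C S * Hi S x) i j := by
      intro i j x
      have : (fun y => (C S * (N S * R y)) i j)
          = fun y => ∑ k, C S i k * (fun y => (N S * R y) k j) y := by
        funext y; rw [Matrix.mul_apply]
      rw [this, hi_sum S (fun k => C S i k) (fun k y => (N S * R y) k j) x, Matrix.mul_apply]
      rfl
    have e5 : ∑ i, ∑ j, ∑ x, hi t S (fun y => (C S * (N S * R y)) i j) x ^ 2
        ≤ 2 * B * ∑ x, fro (Hi S x) := by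
      have : ∑ i, ∑ j, ∑ x, hi t S (fun y => (C S * (N S * R y)) i j) x ^ 2
          = ∑ x, fro (C S * Hi S x) := by
        simp only [e4, fro]
        symm
        rw [Finset.sum_comm]
        exact Finset.sum_congr rfl fun i _ => Finset.sum_comm
      rw [this, Finset.mul_sum]
      refine Finset.sum_le_sum fun x _ => ?_
      refine (fro_mul_le (C S) (Hi S x)).trans ?_
      rw [← hC S]
      exact mul_le_mul_of_nonneg_right hSt (fro_nonneg _)
    rw [e2, e3]
    have e6 := Finset.sum_le_sum fun i (_ : i ∈ (Finset.univ : Finset υ)) =>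
      Finset.sum_le_sum fun j (_ : j ∈ (Finset.univ : Finset ρ)) =>
        restrict_one (t := t) κ ζ hκ.le hζpos D hD hfool S (fun y => (C S * (N S * R y)) i j)
    refine le_trans ?_ e6
    simp only [Finset.sum_neg_distrib, ← Finset.mul_sum, Finset.sum_add_distrib]
    have e7 : 0 ≤ κ * (1 + 1 / ζ) := by positivity
    have e8 := mul_le_mul_of_nonneg_left e5 e7
    nlinarith [e8]
  have hup : ∑ x, ((R x)ᵀ * (T x * R x)).trace ≤ θ / 2 * A := by
    have f1 : ∑ x, ((R x)ᵀ * (T x * R x)).trace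
        = -(1 / N₁) * ∑ S ∈ G, ∑ x, D (rs S x) * ((R x)ᵀ * (W S * R x)).trace := by
      rw [Finset.sum_comm, Finset.mul_sum]
      refine Finset.sum_congr rfl fun x _ => ?_
      simp only [trace_eq_sum, hTq, Finset.mul_sum]
      rw [Finset.sum_comm]
    have f2 : ∑ S ∈ G, ∑ x, D (rs S x) * ((R x)ᵀ * (W S * R x)).trace
        ≥ ∑ S ∈ G, -(κ * (ζ * ∑ x, ((R x)ᵀ * (W S * R x)).trace
          + (1 + 1 / ζ) * (2 * B * ∑ x, fro (Hi S x)))) :=
      Finset.sum_le_sum hone
    have f3 : ∑ S ∈ G, ∑ x, ((R x)ᵀ * (W S * R x)).trace ≤ N₁ * A := by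
      have g0 : ∀ S x, 0 ≤ ((R x)ᵀ * (W S * R x)).trace := fun S x => by
        rw [trace_eq_sum]
        exact Finset.sum_nonneg fun j _ => hqf S _
      calc ∑ S ∈ G, ∑ x, ((R x)ᵀ * (W S * R x)).trace
          ≤ ∑ S, ∑ x, ((R x)ᵀ * (W S * R x)).trace :=
            Finset.sum_le_univ_sum_of_nonneg fun S => Finset.sum_nonneg fun x _ => g0 S x
        _ = ∑ x, ∑ j, ∑ S, (fun i => R x i j) ⬝ᵥ W S *ᵥ (fun i => R x i j) := by
            rw [Finset.sum_comm]
            refine Finset.sum_congr rfl fun x _ => ?_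
            simp only [trace_eq_sum]
            rw [Finset.sum_comm]
        _ ≤ ∑ x, ∑ j, N₁ * ((fun i => R x i j) ⬝ᵥ (fun i => R x i j)) :=
            Finset.sum_le_sum fun x _ => Finset.sum_le_sum fun j _ => hWI' _
        _ = N₁ * A := by
            rw [hA, Finset.mul_sum]
            refine Finset.sum_congr rfl fun x _ => ?_
            rw [← Finset.mul_sum, fro, Finset.sum_comm]
            congr 1
            refine Finset.sum_congr rfl fun j _ => ?_
            simp only [dotProduct]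
            exact Finset.sum_congr rfl fun i _ => by ring
    have f4 : ∑ S ∈ G, ∑ x, fro (Hi S x) ≤ N₁ * (η * Γ) * A := by
      calc ∑ S ∈ G, ∑ x, fro (Hi S x) ≤ ∑ S, ∑ x, fro (Hi S x) :=
            Finset.sum_le_univ_sum_of_nonneg fun S => Finset.sum_nonneg fun x _ => fro_nonneg _
        _ = ∑ i, ∑ j, ∑ S, ∑ x, hi t S (fun y => (N S * R y) i j) x ^ 2 := by
            simp only [fro, hHi, Matrix.of_apply]
            calc ∑ S, ∑ x, ∑ i, ∑ j, hi t S (fun y => (N S * R y) i j) x ^ 2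
                = ∑ S, ∑ i, ∑ j, ∑ x, hi t S (fun y => (N S * R y) i j) x ^ 2 := by
                  refine Finset.sum_congr rfl fun S _ => ?_
                  rw [Finset.sum_comm]
                  exact Finset.sum_congr rfl fun i _ => Finset.sum_comm
              _ = ∑ i, ∑ j, ∑ S, ∑ x, hi t S (fun y => (N S * R y) i j) x ^ 2 := by
                  rw [Finset.sum_comm]
                  exact Finset.sum_congr rfl fun i _ => Finset.sum_comm
        _ ≤ ∑ i, ∑ j, η * ∑ S, ∑ x, (N S * R x) i j ^ 2 := by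
            refine Finset.sum_le_sum fun i _ => Finset.sum_le_sum fun j _ => ?_
            refine restrict_avg2 hb hq' (fun S y => (N S * R y) i j) ?_ ?_
            · intro S
              have : (fun y => (N S * R y) i j) = ∑ k, N S i k • fun y => R y k j := by
                funext y
                simp [Matrix.mul_apply, Finset.sum_apply]
              simp only [this]
              exact Submodule.sum_mem _ fun k _ => Submodule.smul_mem _ _ (hRdeg k j)
            · intro x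
              have : (fun S => (N S * R x) i j) = ∑ k, R x k j • fun S => N S i k := by
                funext S
                simp only [Matrix.mul_apply, Finset.sum_apply, Pi.smul_apply, smul_eq_mul]
                exact Finset.sum_congr rfl fun k _ => mul_comm _ _
              simp only [this]
              exact Submodule.sum_mem _ fun k _ => Submodule.smul_mem _ _ (hNP i k)
        _ = η * ∑ S, ∑ x, fro (N S * R x) := by
            simp only [← Finset.mul_sum]
            congr 1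
            simp only [fro]
            symm
            calc ∑ S, ∑ x, ∑ i, ∑ j, (N S * R x) i j ^ 2
                = ∑ S, ∑ i, ∑ j, ∑ x, (N S * R x) i j ^ 2 := by
                  refine Finset.sum_congr rfl fun S _ => ?_
                  rw [Finset.sum_comm]
                  exact Finset.sum_congr rfl fun i _ => Finset.sum_comm
              _ = ∑ i, ∑ j, ∑ S, ∑ x, (N S * R x) i j ^ 2 := by
                  rw [Finset.sum_comm]
                  exact Finset.sum_congr rfl fun i _ => Finset.sum_comm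
        _ ≤ η * (N₁ * Γ * A) := by
            refine mul_le_mul_of_nonneg_left ?_ hηnn
            have hfN : ∀ S x, fro (N S * R x)
                = ∑ j, (N S *ᵥ fun i => R x i j) ⬝ᵥ (N S *ᵥ fun i => R x i j) := by
              intro S x
              rw [fro, Finset.sum_comm]
              refine Finset.sum_congr rfl fun j _ => ?_
              simp only [dotProduct]
              refine Finset.sum_congr rfl fun i _ => ?_
              rw [sq, Matrix.mul_apply]
              rfl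
            calc ∑ S, ∑ x, fro (N S * R x)
                = ∑ x, ∑ j, ∑ S, (N S *ᵥ fun i => R x i j) ⬝ᵥ (N S *ᵥ fun i => R x i j) := by
                  rw [Finset.sum_comm]
                  refine Finset.sum_congr rfl fun x _ => ?_
                  simp only [hfN]
                  rw [Finset.sum_comm]
              _ ≤ ∑ x, ∑ j, N₁ * Γ * ((fun i => R x i j) ⬝ᵥ (fun i => R x i j)) :=
                  Finset.sum_le_sum fun x _ => Finset.sum_le_sum fun j _ => hNI _
              _ = N₁ * Γ * A := by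
                  rw [hA, Finset.mul_sum]
                  refine Finset.sum_congr rfl fun x _ => ?_
                  rw [← Finset.mul_sum, fro, Finset.sum_comm]
                  congr 1
                  refine Finset.sum_congr rfl fun j _ => ?_
                  simp only [dotProduct]
                  exact Finset.sum_congr rfl fun i _ => by ring
        _ = N₁ * (η * Γ) * A := by ring
    have f5 : -∑ S ∈ G, ∑ x, D (rs S x) * ((R x)ᵀ * (W S * R x)).trace
        ≤ κ * (ζ * (N₁ * A) + (1 + 1 / ζ) * (2 * B * (N₁ * (η * Γ) * A))) := by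
      have g1 : ∑ S ∈ G, -(κ * (ζ * ∑ x, ((R x)ᵀ * (W S * R x)).trace
          + (1 + 1 / ζ) * (2 * B * ∑ x, fro (Hi S x))))
          = -(κ * (ζ * ∑ S ∈ G, ∑ x, ((R x)ᵀ * (W S * R x)).trace
          + (1 + 1 / ζ) * (2 * B * ∑ S ∈ G, ∑ x, fro (Hi S x)))) := by
        simp only [Finset.sum_neg_distrib, ← Finset.mul_sum, Finset.sum_add_distrib]
      have g2 : ζ * ∑ S ∈ G, ∑ x, ((R x)ᵀ * (W S * R x)).trace ≤ ζ * (N₁ * A) :=
        mul_le_mul_of_nonneg_left f3 hζpos.le
      have g3 : (1 + 1 / ζ) * (2 * B * ∑ S ∈ G, ∑ x, fro (Hi S x))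
          ≤ (1 + 1 / ζ) * (2 * B * (N₁ * (η * Γ) * A)) := by gcongr
      have g4 := mul_le_mul_of_nonneg_left (add_le_add g2 g3) hκ.le
      rw [g1] at f2
      linarith
    rw [f1]
    calc -(1 / N₁) * ∑ S ∈ G, ∑ x, D (rs S x) * ((R x)ᵀ * (W S * R x)).trace
        = 1 / N₁ * (-∑ S ∈ G, ∑ x, D (rs S x) * ((R x)ᵀ * (W S * R x)).trace) := by ring
      _ ≤ 1 / N₁ * (κ * (ζ * (N₁ * A) + (1 + 1 / ζ) * (2 * B * (N₁ * (η * Γ) * A)))) := by
          gcongr
      _ = (κ * ζ + κ * (1 + 1 / ζ) * (2 * B) * (η * Γ)) * A := by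
          field_simp
      _ ≤ (θ / 4 + θ / 4) * A := by
          refine mul_le_mul_of_nonneg_right (add_le_add ?_ ?_) hA0
          · rw [hζ]
            apply le_of_eq
            field_simp
          · have : 1 / ζ = 4 * κ / θ := by rw [hζ]; field_simp
            rw [this]
            linarith [hnum2]
      _ = θ / 2 * A := by ring
  have : θ * A < θ / 2 * A := lt_of_lt_of_le hlow1 hup
  nlinarith [mul_nonneg hθ.le hA0]

end SDX
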