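import Mathlib
import Pool.Agent.Helper71.SDX.Defs
import Pool.Agent.Helper71.SDX.Pd
import Pool.Agent.Helper97.SDX.DegS

/-!
# SDX, log-free version: the features of the localiser have bounded degree in `S`
-/

set_option autoImplicit false

open scoped BigOperators Matrix

namespace SDX

theorem features2 {m b q : ℕ} (g : (Fin m → Bool) → ℝ) (hg : g ∈ Deg (Fin m) q) :
    ∃ w : (Fin m → Fin b) → Ft m b q → ℝ,
      (∀ S x, ∑ α, w S α * chr α.1 x = g (rs S x)) ∧ ∀ α, (fun S => w S α) ∈ DegS m b q := by
  classical
  induction hg using Submodule.span_induction with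
  | mem f hf =>
    obtain ⟨β, hβ, rfl⟩ := hf
    refine ⟨fun S α => if α.1.image Prod.fst = β then inc α.1 S else 0, ?_, ?_⟩
    · intro S x
      let e : Fin m ↪ Fin m × Fin b := ⟨fun i => (i, S i), fun i j h => congrArg Prod.fst h⟩
      have himg : (β.map e).image Prod.fst = β := by
        ext i
        simp only [Finset.mem_image, Finset.mem_map]
        constructor
        · rintro ⟨_, ⟨j, hj, rfl⟩, rfl⟩
          exact hj
        · intro hi
          exact ⟨e i, ⟨i, hi, rfl⟩, rfl⟩
      rw [Finset.sum_eq_single ⟨β.map e, by rwa [Finset.card_map]⟩]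
      · have hinc : inc (β.map e) S = 1 := by
          rw [inc, if_pos]
          intro e' he'
          obtain ⟨j, _, rfl⟩ := Finset.mem_map.mp he'
          rfl
        simp only [himg, if_true, hinc, one_mul]
        rw [chr, chr, Finset.prod_map]
        rfl
      · intro α _ hα
        by_cases h : α.1.image Prod.fst = β
        · have : inc α.1 S = 0 := by
            rw [inc, if_neg]
            intro hS
            apply hα
            apply Subtype.ext
            ext e'
            simp only [Finset.mem_map]
            constructor
            · intro he'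
              refine ⟨e'.1, ?_, Prod.ext rfl (hS e' he')⟩
              rw [← h]
              exact Finset.mem_image_of_mem _ he'
            · rintro ⟨j, hj, rfl⟩
              rw [← h] at hj
              obtain ⟨e'', he'', rfl⟩ := Finset.mem_image.mp hj
              have : e e''.1 = e'' := Prod.ext rfl (hS e'' he'')
              rw [this]
              exact he''
          simp [this]
        · simp [h]
      · intro h
        exact absurd (Finset.mem_univ _) h
    · intro α
      by_cases h : α.1.image Prod.fst = β
      · simp only [h, if_true]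
        exact Submodule.subset_span ⟨α.1, α.2, rfl⟩
      · simp only [h, if_false]
        exact Submodule.zero_mem _
  | zero => exact ⟨0, fun S x => by simp, fun α => Submodule.zero_mem _⟩
  | add f₁ f₂ _ _ h₁ h₂ =>
    obtain ⟨w₁, h₁, d₁⟩ := h₁
    obtain ⟨w₂, h₂, d₂⟩ := h₂
    refine ⟨w₁ + w₂, fun S x => ?_, fun α => Submodule.add_mem _ (d₁ α) (d₂ α)⟩
    simp only [Pi.add_apply, add_mul, Finset.sum_add_distrib, h₁, h₂]
  | smul a f _ h =>
    obtain ⟨w, h, d⟩ := h
    refine ⟨a • w, fun S x => ?_, fun α => Submodule.smul_mem _ a (d α)⟩
    simp only [Pi.smul_apply, smul_eq_mul, mul_assoc, ← Finset.mul_sum, h]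

end SDX
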