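import Mathlib
import Pool.Agent.Helper71.SDX.Core
import Pool.Agent.Helper71.SDX.Marg
import Pool.Agent.Helper71.SDX.Pd
import Pool.Agent.Helper97.SDX.Pd
import Pool.Agent.Helper97.SDX.Main2
import Pool.Agent.Helper97.SDX.Features2
import Pool.Agent.Helper35.SDX.Cheb
import Pool.Agent.Helper25.SDX.HI
import Pool.Agent.Helper59.SDX.Core3
import Pool.Agent.Helper74.SDX.Fool
import Pool.Agent.Helper59.SDX.Tests3
import Pool.Agent.Helper70.SDX.Local3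

/-!
# Main theorem for factorisations, two-sided error version (adapted from Main2)
-/

set_option autoImplicit false

open scoped BigOperators Matrix

namespace SDX

open h71

namespace h97

/-- the numbers for `core3` -/
lemma nums1c {m i K r : ℕ} (hm : 1 ≤ m) (hr : 1 ≤ r) (hi : 2 * i + 1 ≤ m) (c₀ γ : ℝ)
    (hc₀ : 0 < c₀) (hc₁ : c₀ ≤ 1) (hγ₀ : 0 < γ) (hγ₁ : γ ≤ 1)
    (hK : Real.sqrt (2560 * ((m : ℝ) / (2 * i + 1)) ^ 3 / (c₀ * γ ^ 3))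
      * Real.log (100000 * (m : ℝ) ^ 4 * r / (c₀ * γ ^ 3)) ≤ K)
    (κ θ φ ε H : ℝ) (hκ : κ = 2 * Real.sqrt m)
    (hφ : φ = 20 * ((m : ℝ) / (2 * i + 1)) ^ 3 / Real.sqrt m) (hε : ε = c₀ * γ / 4)
    (hθ : θ = γ / 2 * ε / (8 * φ)) (hH : H = Real.exp (K * Real.sqrt (θ / κ)) / 4) :
    0 < θ ∧ 0 < κ ∧ θ ≤ κ ∧ θ / κ = c₀ * γ ^ 2 / (2560 * ((m : ℝ) / (2 * i + 1)) ^ 3) ∧
      (κ + θ) * (2 * r) < H / (2 * (2 * (m : ℝ) ^ 2)) * (γ / 2 * ε / 2 - 2 * θ * φ) := by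
  have hm' : (1 : ℝ) ≤ m := by exact_mod_cast hm
  have hr' : (1 : ℝ) ≤ r := by exact_mod_cast hr
  set L : ℝ := (m : ℝ) / (2 * i + 1) with hL
  have hL1 : 1 ≤ L := by
    rw [hL, le_div_iff₀ (by positivity)]
    have : ((2 * i + 1 : ℕ) : ℝ) ≤ m := by exact_mod_cast hi
    push_cast at this
    linarith
  have hL3 : 1 ≤ L ^ 3 := one_le_pow₀ hL1
  have hs : 1 ≤ Real.sqrt m := by
    rw [Real.one_le_sqrt]; exact hm'
  have hspos : 0 < Real.sqrt m := by linarith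
  have hss : Real.sqrt m * Real.sqrt m = m := Real.mul_self_sqrt (by linarith)
  have hsm : Real.sqrt m ≤ m := by nlinarith
  have hφpos : 0 < φ := by rw [hφ]; positivity
  have hεpos : 0 < ε := by rw [hε]; positivity
  have hθpos : 0 < θ := by rw [hθ]; positivity
  have hκpos : 0 < κ := by rw [hκ]; positivity
  have hγ2 : γ ^ 2 ≤ 1 := pow_le_one₀ hγ₀.le hγ₁
  have hγ3 : γ ^ 3 ≤ 1 := pow_le_one₀ hγ₀.le hγ₁
  have hratio : θ / κ = c₀ * γ ^ 2 / (2560 * L ^ 3) := by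
    rw [hθ, hκ, hε, hφ]
    field_simp
    ring
  have hcg : c₀ * γ ^ 2 ≤ 1 := by
    calc c₀ * γ ^ 2 ≤ 1 * 1 := mul_le_mul hc₁ hγ2 (by positivity) zero_le_one
      _ = 1 := one_mul 1
  have hθκ : θ ≤ κ := by
    have : θ / κ ≤ 1 := by
      rw [hratio, div_le_one (by positivity)]
      nlinarith
    rwa [div_le_one hκpos] at this
  refine ⟨hθpos, hκpos, hθκ, hratio, ?_⟩
  set ν : ℝ := c₀ * γ ^ 3 with hν
  have hνpos : 0 < ν := by positivity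
  have hνle : ν ≤ c₀ * γ ^ 2 := by
    rw [hν, pow_succ γ 2, ← mul_assoc]
    exact mul_le_of_le_one_right (by positivity) hγ₁
  have hν1 : ν ≤ 1 := hνle.trans hcg
  have h1 : γ / 2 * ε / 2 - 2 * θ * φ = c₀ * γ ^ 2 / 32 := by
    rw [hθ, hε]
    field_simp
    ring
  have hA : 1 ≤ 100000 * (m : ℝ) ^ 4 * r / ν := by
    rw [le_div_iff₀ hνpos]
    have : 1 ≤ (m : ℝ) ^ 4 := one_le_pow₀ hm'
    have : 1 ≤ (m : ℝ) ^ 4 * r := one_le_mul_of_one_le_of_one_le this hr'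
    nlinarith
  have hlog : 0 ≤ Real.log (100000 * (m : ℝ) ^ 4 * r / ν) := Real.log_nonneg hA
  have h2 : Real.log (100000 * (m : ℝ) ^ 4 * r / ν) ≤ K * Real.sqrt (θ / κ) := by
    have h3 : 1 ≤ Real.sqrt (2560 * L ^ 3 / ν) * Real.sqrt (θ / κ) := by
      rw [hratio, ← Real.sqrt_mul (by positivity)]
      have : 1 ≤ 2560 * L ^ 3 / ν * (c₀ * γ ^ 2 / (2560 * L ^ 3)) := by
        have e : 2560 * L ^ 3 / ν * (c₀ * γ ^ 2 / (2560 * L ^ 3)) = c₀ * γ ^ 2 / ν := by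
          field_simp
        rw [e, le_div_iff₀ hνpos, one_mul]
        exact hνle
      rw [Real.one_le_sqrt]
      exact this
    have h4 := mul_le_mul_of_nonneg_right hK (Real.sqrt_nonneg (θ / κ))
    calc Real.log (100000 * (m : ℝ) ^ 4 * r / ν)
        = 1 * Real.log (100000 * (m : ℝ) ^ 4 * r / ν) := by rw [one_mul]
      _ ≤ (Real.sqrt (2560 * L ^ 3 / ν) * Real.sqrt (θ / κ))
          * Real.log (100000 * (m : ℝ) ^ 4 * r / ν) :=
          mul_le_mul_of_nonneg_right h3 hlog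
      _ = Real.sqrt (2560 * L ^ 3 / ν) * Real.log (100000 * (m : ℝ) ^ 4 * r / ν)
          * Real.sqrt (θ / κ) := by ring
      _ ≤ _ := h4
  have h5 : 100000 * (m : ℝ) ^ 4 * r / ν ≤ Real.exp (K * Real.sqrt (θ / κ)) := by
    have : 0 < 100000 * (m : ℝ) ^ 4 * r / ν := by positivity
    rw [← Real.log_le_iff_le_exp this]
    exact h2
  have h6 : 25000 * (m : ℝ) ^ 4 * r / ν ≤ H := by
    rw [hH]
    have : 25000 * (m : ℝ) ^ 4 * r / ν = (100000 * (m : ℝ) ^ 4 * r / ν) / 4 := by ring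
    rw [this]
    linarith
  rw [h1]
  have h7 : (κ + θ) * (2 * r) ≤ 8 * m * r := by
    have : κ + θ ≤ 4 * m := by rw [hκ] at hθκ ⊢; linarith
    nlinarith
  have hHpos : 0 < H := by rw [hH]; positivity
  have h8 : 195 * (m : ℝ) ^ 2 * r ≤ H / (2 * (2 * (m : ℝ) ^ 2)) * (c₀ * γ ^ 2 / 32) := by
    have e1 : 25000 * (m : ℝ) ^ 4 * r / ν / (2 * (2 * (m : ℝ) ^ 2)) * (ν / 32)
        ≤ H / (2 * (2 * (m : ℝ) ^ 2)) * (c₀ * γ ^ 2 / 32) := by gcongr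
    have e2 : 25000 * (m : ℝ) ^ 4 * r / ν / (2 * (2 * (m : ℝ) ^ 2)) * (ν / 32)
        = 25000 / 128 * (m : ℝ) ^ 2 * r := by
      field_simp
      ring
    rw [e2] at e1
    refine le_trans ?_ e1
    have : 0 ≤ (m : ℝ) ^ 2 * r := by positivity
    nlinarith
  have h9 : 8 * (m : ℝ) * r < 195 * (m : ℝ) ^ 2 * r := by
    have : 0 < (m : ℝ) * r := by positivity
    nlinarith
  linarith

lemma nums2c {m b i K r t : ℕ} (hm : 1 ≤ m) (hb : 0 < b) (hi : 2 * i + 1 ≤ m) (c₀ γ : ℝ)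
    (hc₀ : 0 < c₀) (hc₁ : c₀ ≤ 1) (hγ₀ : 0 < γ) (hγ₁ : γ ≤ 1) (κ θ : ℝ) (hθpos : 0 < θ)
    (hκpos : 0 < κ)
    (hratio : θ / κ = c₀ * γ ^ 2 / (2560 * ((m : ℝ) / (2 * i + 1)) ^ 3))
    (hnum : (r : ℝ) *
      (16 ^ m * (((K * m + 4 * i).choose (t + 1 - 4 * i) : ℝ) / (b : ℝ) ^ (t + 1 - 4 * i)))
        * (10 : ℝ) ^ 11 * (m : ℝ) ^ 3 * ((m : ℝ) / (2 * i + 1)) ^ 6 ≤ (c₀ * γ ^ 3) ^ 3) :
    κ * (1 + 4 * κ / θ) * (2 / (γ / 2) * (9 / 8 * (r : ℝ))) *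
      (16 ^ m * (((K * m + 4 * i).choose (t + 1 - 4 * i) : ℝ) / (b : ℝ) ^ (t + 1 - 4 * i)))
        * (16 * (m : ℝ) ^ 3 / (c₀ * γ)) ≤ θ / 4 := by
  have hm' : (1 : ℝ) ≤ m := by exact_mod_cast hm
  have hb' : (0 : ℝ) < b := by exact_mod_cast hb
  set L : ℝ := (m : ℝ) / (2 * i + 1) with hL
  have hL1 : 1 ≤ L := by
    rw [hL, le_div_iff₀ (by positivity)]
    have : ((2 * i + 1 : ℕ) : ℝ) ≤ m := by exact_mod_cast hi
    push_cast at this
    linarith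
  have hL3 : 1 ≤ L ^ 3 := one_le_pow₀ hL1
  set η : ℝ := 16 ^ m * (((K * m + 4 * i).choose (t + 1 - 4 * i) : ℝ) / (b : ℝ) ^ (t + 1 - 4 * i))
    with hη
  have hηnn : 0 ≤ η := by positivity
  set g : ℝ := κ / θ with hg
  have hgval : g = 2560 * L ^ 3 / (c₀ * γ ^ 2) := by
    have : g = (θ / κ)⁻¹ := by rw [hg, inv_div]
    rw [this, hratio, inv_div]
  have hγ2 : γ ^ 2 ≤ 1 := pow_le_one₀ hγ₀.le hγ₁
  have hγ3 : γ ^ 3 ≤ 1 := pow_le_one₀ hγ₀.le hγ₁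
  have hcg : c₀ * γ ^ 2 ≤ 1 := by
    calc c₀ * γ ^ 2 ≤ 1 * 1 := mul_le_mul hc₁ hγ2 (by positivity) zero_le_one
      _ = 1 := one_mul 1
  have hg1 : 1 ≤ g := by
    rw [hgval, le_div_iff₀ (by positivity)]
    nlinarith
  have hκg : κ = g * θ := by rw [hg]; field_simp
  have h4 : 4 * κ / θ = 4 * g := by rw [hg]; ring
  rw [h4, hκg]
  have hr0 : (0 : ℝ) ≤ r := Nat.cast_nonneg r
  have h5 : g * θ * (1 + 4 * g) * (2 / (γ / 2) * (9 / 8 * (r : ℝ))) * η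
        * (16 * (m : ℝ) ^ 3 / (c₀ * γ))
      ≤ θ * (360 * g ^ 2 * (r * η * m ^ 3 / (c₀ * γ ^ 2))) := by
    have : 1 + 4 * g ≤ 5 * g := by linarith
    calc g * θ * (1 + 4 * g) * (2 / (γ / 2) * (9 / 8 * (r : ℝ))) * η
          * (16 * (m : ℝ) ^ 3 / (c₀ * γ))
        = (1 + 4 * g) * (g * θ * (2 / (γ / 2) * (9 / 8 * (r : ℝ))) * η
          * (16 * (m : ℝ) ^ 3 / (c₀ * γ))) := by ring
      _ ≤ 5 * g * (g * θ * (2 / (γ / 2) * (9 / 8 * (r : ℝ))) * η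
          * (16 * (m : ℝ) ^ 3 / (c₀ * γ))) := by
          refine mul_le_mul_of_nonneg_right this ?_
          have : 0 ≤ g := by linarith
          positivity
      _ = _ := by
          field_simp
          ring
  refine h5.trans ?_
  have h6 : 360 * g ^ 2 * (r * η * m ^ 3 / (c₀ * γ ^ 2)) ≤ 1 / 4 := by
    have h8 : g ^ 2 = 6553600 * L ^ 6 / (c₀ ^ 2 * γ ^ 4) := by
      rw [hgval, div_pow, mul_pow, mul_pow]
      ring
    have h9 : (r : ℝ) * η * (m : ℝ) ^ 3 * L ^ 6 ≤ c₀ ^ 3 * γ ^ 9 / 10 ^ 11 := by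
      rw [le_div_iff₀ (by positivity)]
      have : (c₀ * γ ^ 3) ^ 3 = c₀ ^ 3 * γ ^ 9 := by ring
      rw [this] at hnum
      linarith
    calc 360 * g ^ 2 * (r * η * m ^ 3 / (c₀ * γ ^ 2))
        = 2359296000 / (c₀ ^ 3 * γ ^ 6) * (r * η * (m : ℝ) ^ 3 * L ^ 6) := by
          rw [h8]; field_simp; ring
      _ ≤ 2359296000 / (c₀ ^ 3 * γ ^ 6) * (c₀ ^ 3 * γ ^ 9 / 10 ^ 11) := by gcongr
      _ = 0.02359296 * γ ^ 3 := by field_simp; norm_num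
      _ ≤ 0.02359296 * 1 := by gcongr
      _ ≤ 1 / 4 := by norm_num
  nlinarith

end h97

open h97

theorem main3 {m b t i K r : ℕ} (hm : Odd m) (hb : 0 < b) (hr : 0 < r) (ht : 4 * t ≤ m)
    (hit : 4 * i ≤ t) (hmi : 8 * i + 2 ≤ m) (c₀ γ τ : ℝ) (hc₀ : 0 < c₀) (hc₁ : c₀ ≤ 1)
    (hγ₀ : 0 < γ) (hγ₁ : γ ≤ 1) (hτ : 0 ≤ τ) (hτ' : 8 * Real.sqrt m * τ ≤ c₀ * γ)
    (𝒳 : Finset (Fin m × Fin b → Bool)) (h𝒳 : γ * 2 ^ (m * b) ≤ 𝒳.card)
    (𝒮 : Finset (Fin m → Fin b)) (h𝒮 : γ * (b : ℝ) ^ m ≤ 𝒮.card)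
    (P : (Fin m → Fin b) → Matrix (Fin r) (Fin r) ℝ) (hP : ∀ S, (P S).PosSemidef)
    (hP0 : ∀ S, S ∉ 𝒮 → P S = 0)
    (Q : (Fin m × Fin b → Bool) → Matrix (Fin r) (Fin r) ℝ) (hQ : ∀ x, (Q x).PosSemidef)
    (hQ0 : ∀ x, x ∉ 𝒳 → Q x = 0)
    (hM : ∀ S ∈ 𝒮, ∀ x ∈ 𝒳, |(P S * Q x).trace - (ssum (rs S x) ^ 2 - c₀)| ≤ τ)
    (hK : Real.sqrt (2560 * ((m : ℝ) / (2 * i + 1)) ^ 3 / (c₀ * γ ^ 3))
      * Real.log (100000 * (m : ℝ) ^ 4 * r / (c₀ * γ ^ 3)) ≤ K)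
    (hbm : 2048 * Real.sqrt m * ((m : ℝ) / (2 * i + 1)) ^ 5 ≤ (c₀ * γ ^ 3) ^ 2 * b)
    (hnum : (r : ℝ) *
      (16 ^ m * (((K * m + 4 * i).choose (t + 1 - 4 * i) : ℝ) / (b : ℝ) ^ (t + 1 - 4 * i)))
        * (10 : ℝ) ^ 11 * (m : ℝ) ^ 3 * ((m : ℝ) / (2 * i + 1)) ^ 6
        ≤ (c₀ * γ ^ 3) ^ 3) : False := by
  classical
  have hm1 : 1 ≤ m := hm.pos
  have hm' : (1 : ℝ) ≤ m := by exact_mod_cast hm1
  have hr' : (1 : ℝ) ≤ r := by exact_mod_cast hr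
  have hmi' : 2 * i + 1 ≤ m := by omega
  have hb' : (0 : ℝ) < b := by exact_mod_cast hb
  have : Nonempty (Fin m → Fin b) := ⟨fun _ => ⟨0, hb⟩⟩
  set N : ℝ := (b : ℝ) ^ m with hN
  have hNpos : 0 < N := by positivity
  have hcardS : (Fintype.card (Fin m → Fin b) : ℝ) = N := by simp [hN]
  set V : ℝ := (2 : ℝ) ^ (m * b) with hV
  have hVpos : 0 < V := by positivity
  have hcardX : (Fintype.card (Fin m × Fin b → Bool) : ℝ) = V := by simp [hV]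
  have hs1 : 1 ≤ Real.sqrt m := by rw [Real.one_le_sqrt]; exact hm'
  have hspos : 0 < Real.sqrt m := by linarith
  set L : ℝ := (m : ℝ) / (2 * i + 1) with hL
  have hLpos : 0 < L := by positivity
  have hcγ : 0 < c₀ * γ := by positivity
  have hcγ₀ : c₀ * γ ≤ c₀ := mul_le_of_le_one_right hc₀.le hγ₁
  have hτc : 8 * τ ≤ c₀ * γ := by nlinarith
  -- the localiser
  obtain ⟨p, hpdeg, hp0, hp1, hp3, hp2⟩ := exists_local3 m i hm hmi'
  obtain ⟨𝒢, h𝒢𝒮, h𝒢card, h𝒢⟩ := good_tests hm hb hmi c₀ γ hc₀ hc₁ hγ₀ hγ₁ p hpdeg hp0 hp1 hp3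
    hp2 hbm 𝒳 h𝒳 𝒮 h𝒮
  obtain ⟨w, hw, hwdeg⟩ := features2 (b := b) (q := 4 * i) (fun y => p.eval (ssum y))
    (h97.poly_mem p (4 * i) hpdeg)
  have hp1' : ∀ y : Fin m → Bool, p.eval (ssum y) ^ 2 ≤ 1 := fun y => by
    have := hp1 y
    rw [← sq_abs]
    nlinarith [abs_nonneg (p.eval (ssum y))]
  -- bounds of the entries
  have hssum : ∀ y : Fin m → Bool, ssum y ^ 2 ≤ (m : ℝ) ^ 2 := by
    intro y
    have h1 : |ssum y| ≤ m := by
      unfold ssum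
      refine (Finset.abs_sum_le_sum_abs _ _).trans ?_
      simp [abs_sg]
    rw [← sq_abs]
    exact pow_le_pow_left₀ (abs_nonneg _) h1 2
  have hMle : ∀ S x, (P S * Q x).trace ≤ ssum (rs S x) ^ 2 := by
    intro S x
    by_cases hS : S ∈ 𝒮
    · by_cases hx : x ∈ 𝒳
      · have := (abs_le.1 (hM S hS x hx)).2
        linarith
      · rw [hQ0 x hx, Matrix.mul_zero, Matrix.trace_zero]
        positivity
    · rw [hP0 S hS, Matrix.zero_mul, Matrix.trace_zero]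
      positivity
  have hQtr0 : ∀ x, 0 ≤ (Q x).trace := fun x => (hQ x).trace_nonneg
  -- first scaling
  obtain ⟨ξ₁, hξ₁, -, hξ₁'⟩ := exists_small (fun x => (Q x).trace) hQtr0 1 one_pos
  obtain ⟨B₁, C₁, hBC₁, hCB₁, hBB₁, hquad₁⟩ := scale P hP ξ₁ hξ₁
  set P' : (Fin m → Fin b) → Matrix (Fin r) (Fin r) ℝ := fun S => C₁ᵀ * P S * C₁ with hP'
  set Q' : (Fin m × Fin b → Bool) → Matrix (Fin r) (Fin r) ℝ := fun x => B₁ * Q x * B₁ᵀ with hQ'
  have hP'psd : ∀ S, (P' S).PosSemidef := by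
    intro S
    have := (hP S).conjTranspose_mul_mul_same C₁
    rwa [Matrix.conjTranspose_eq_transpose_of_trivial] at this
  have hQ'psd : ∀ x, (Q' x).PosSemidef := by
    intro x
    have := (hQ x).mul_mul_conjTranspose_same B₁
    rwa [Matrix.conjTranspose_eq_transpose_of_trivial] at this
  have hPQ' : ∀ S x, (P' S * Q' x).trace = (P S * Q x).trace := fun S x =>
    trace_conj (P S) (Q x) B₁ C₁ hCB₁
  have hQ'tr : ∀ x, (Q' x).trace ≤ 2 * (m : ℝ) ^ 2 := by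
    intro x
    rw [hQ', trace_scaled P B₁ (Q x) _ _ hBB₁, hcardS]
    have h1 : ∑ S, (P S * Q x).trace ≤ N * (m : ℝ) ^ 2 := by
      calc ∑ S, (P S * Q x).trace ≤ ∑ _S : Fin m → Fin b, (m : ℝ) ^ 2 :=
            Finset.sum_le_sum fun S _ => (hMle S x).trans (hssum _)
        _ = N * (m : ℝ) ^ 2 := by rw [Finset.sum_const, nsmul_eq_mul, Finset.card_univ, hcardS]
    have h2 : 1 / N * ∑ S, (P S * Q x).trace ≤ (m : ℝ) ^ 2 := by
      calc 1 / N * ∑ S, (P S * Q x).trace ≤ 1 / N * (N * (m : ℝ) ^ 2) := by gcongr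
        _ = (m : ℝ) ^ 2 := by field_simp
    have h3 := hξ₁' x
    have h4 : (1 : ℝ) ≤ (m : ℝ) ^ 2 := one_le_pow₀ hm'
    linarith
  have hP'tr : ∑ S, (P' S).trace ≤ N * r := by
    have h1 : ∀ j : Fin r, ∑ S, P' S j j ≤ N := by
      intro j
      have := hquad₁ (Pi.single j 1)
      rw [hcardS] at this
      simpa [Matrix.mulVec_single, single_dotProduct] using this
    calc ∑ S, (P' S).trace = ∑ j, ∑ S, P' S j j := by rw [Finset.sum_comm]; rfl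
      _ ≤ ∑ _j : Fin r, N := Finset.sum_le_sum fun j _ => h1 j
      _ = N * r := by simp [mul_comm]
  -- regularisation
  set ηr : ℝ := c₀ * γ / (16 * (m : ℝ) ^ 3) with hηr
  have hηpos : 0 < ηr := by positivity
  have hm3 : (1 : ℝ) ≤ (m : ℝ) ^ 3 := one_le_pow₀ hm'
  have hη1 : ηr ≤ 1 / 8 := by
    rw [hηr, div_le_iff₀ (by positivity)]
    linarith
  have hηQ : ∀ x, ηr * (Q' x).trace ≤ c₀ * γ / (8 * m) := by
    intro x
    calc ηr * (Q' x).trace ≤ ηr * (2 * (m : ℝ) ^ 2) := mul_le_mul_of_nonneg_left (hQ'tr x) hηpos.le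
      _ = c₀ * γ / (8 * m) := by
          rw [hηr]
          field_simp
          ring
  have hηQ0 : ∀ x, 0 ≤ ηr * (Q' x).trace := fun x =>
    mul_nonneg hηpos.le (hQ'psd x).trace_nonneg
  set P₂ : (Fin m → Fin b) → Matrix (Fin r) (Fin r) ℝ :=
    fun S => P' S + ηr • (1 : Matrix (Fin r) (Fin r) ℝ) with hP₂
  have hP₂psd : ∀ S, (P₂ S).PosSemidef := by
    intro S
    exact (hP'psd S).add (Matrix.PosSemidef.one.smul hηpos.le)
  have hP₂tr : ∑ S, (P₂ S).trace ≤ N * (9 / 8 * r) := by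
    simp only [hP₂, Matrix.trace_add, Matrix.trace_smul, Matrix.trace_one, Fintype.card_fin,
      smul_eq_mul, Finset.sum_add_distrib, Finset.sum_const, nsmul_eq_mul, Finset.card_univ,
      hcardS]
    have : N * (ηr * r) ≤ N * (1 / 8 * r) := by gcongr
    linarith
  have hP₂Q : ∀ S x, (P₂ S * Q' x).trace = (P S * Q x).trace + ηr * (Q' x).trace := by
    intro S x
    rw [← hPQ' S x]
    simp only [hP₂, Matrix.add_mul, Matrix.trace_add, Matrix.smul_mul, Matrix.one_mul,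
      Matrix.trace_smul, smul_eq_mul]
  have hQ'0 : ∀ x, x ∉ 𝒳 → Q' x = 0 := by
    intro x hx
    simp only [hQ', hQ0 x hx, Matrix.mul_zero, Matrix.zero_mul]
  set τ₂ : ℝ := τ + c₀ * γ / (8 * m) with hτ₂
  have hτ₂0 : 0 ≤ τ₂ := by positivity
  have hM₂ : ∀ S ∈ 𝒮, ∀ x ∈ 𝒳, |(P₂ S * Q' x).trace - (ssum (rs S x) ^ 2 - c₀)| ≤ τ₂ := by
    intro S hS x hx
    rw [hP₂Q]
    have e1 := abs_le.1 (hM S hS x hx)
    have e2 := hηQ x
    have e3 := hηQ0 x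
    rw [abs_le]
    constructor <;> linarith [e1.1, e1.2]
  have hcm : c₀ * γ / (8 * m) ≤ c₀ * γ / 8 := by
    gcongr
    linarith
  have hs2 : ∀ (S : Fin m → Fin b) (x : Fin m × Fin b → Bool), 1 ≤ ssum (rs S x) ^ 2 := by
    intro S x
    rw [← sq_abs]
    exact one_le_pow₀ (ssum_abs hm (rs S x))
  have hMle₂ : ∀ S x, (P₂ S * Q' x).trace ≤ ssum (rs S x) ^ 2 := by
    intro S x
    by_cases hx : x ∈ 𝒳
    · by_cases hS : S ∈ 𝒮
      · have := (abs_le.1 (hM₂ S hS x hx)).2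
        have e1 : τ₂ ≤ c₀ := by rw [hτ₂]; linarith
        linarith
      · rw [hP₂Q, hP0 S hS, Matrix.zero_mul, Matrix.trace_zero, zero_add]
        have e1 := hηQ x
        have e2 := hs2 S x
        linarith
    · rw [hQ'0 x hx, Matrix.mul_zero, Matrix.trace_zero]
      positivity
  -- tensor product
  set μ : (Fin m × Fin b → Bool) → Ft m b (4 * i) → ℝ := fun x α => chr α.1 x with hμ
  set W : (Fin m → Fin b) → Matrix (Fin r × Ft m b (4 * i)) (Fin r × Ft m b (4 * i)) ℝ :=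
    fun S => tens (P₂ S) (w S) with hW
  set Qt : (Fin m × Fin b → Bool) → Matrix (Fin r × Ft m b (4 * i)) (Fin r × Ft m b (4 * i)) ℝ :=
    fun x => tens (Q' x) (μ x) with hQt
  set U : (Fin m × Fin b → Bool) → Matrix (Fin r × Ft m b (4 * i)) (Fin r) ℝ :=
    fun x => emb r (μ x) with hU
  have hWpsd : ∀ S, (W S).PosSemidef := fun S => tens_psd (hP₂psd S) _
  have hQtpsd : ∀ x, (Qt x).PosSemidef := fun x => tens_psd (hQ'psd x) _
  have hwμ : ∀ S x, ∑ α, w S α * μ x α = p.eval (ssum (rs S x)) := fun S x => hw S x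
  have hWQ : ∀ S x, (W S * Qt x).trace = (P₂ S * Q' x).trace * p.eval (ssum (rs S x)) ^ 2 := by
    intro S x
    rw [hW, hQt, tens_trace, hwμ]
  -- second scaling
  have hsmall0 : ∀ x, 0 ≤ (Qt x).trace + fro (U x) := fun x =>
    add_nonneg (hQtpsd x).trace_nonneg (fro_nonneg _)
  obtain ⟨ξ₂, hξ₂, hξ₂s, -⟩ := exists_small (fun x => (Qt x).trace + fro (U x)) hsmall0
    (min (V * (4 * L ^ 3 / Real.sqrt m)) (V * (1 / 2))) (lt_min (by positivity) (by positivity))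
  have hξtr : ξ₂ * ∑ x, (Qt x).trace ≤ V * (4 * L ^ 3 / Real.sqrt m) := by
    refine le_trans ?_ (hξ₂s.trans (min_le_left _ _))
    refine mul_le_mul_of_nonneg_left (Finset.sum_le_sum fun x _ => ?_) hξ₂.le
    linarith [fro_nonneg (U x)]
  have hξfro : ξ₂ * ∑ x, fro (U x) ≤ V * (1 / 2) := by
    refine le_trans ?_ (hξ₂s.trans (min_le_right _ _))
    refine mul_le_mul_of_nonneg_left (Finset.sum_le_sum fun x _ => ?_) hξ₂.le
    linarith [(hQtpsd x).trace_nonneg]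
  obtain ⟨B₂, C₂, hBC₂, hCB₂, hBB₂, hquad₂⟩ := scale W hWpsd ξ₂ hξ₂
  rw [hcardS] at hBB₂
  -- the numbers
  set κ : ℝ := 2 * Real.sqrt m with hκ
  set φ : ℝ := 20 * L ^ 3 / Real.sqrt m with hφ
  set ε : ℝ := c₀ * γ / 4 with hε
  set θ : ℝ := γ / 2 * ε / (8 * φ) with hθ
  set H : ℝ := Real.exp (K * Real.sqrt (θ / κ)) / 4 with hH
  obtain ⟨hθpos, hκpos, hθκ, hratio, hn1⟩ := nums1c hm1 hr hmi' c₀ γ hc₀ hc₁ hγ₀
    hγ₁ hK κ θ φ ε H hκ hφ hε hθ hH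
  obtain ⟨h, hdeg, hh1, hh2⟩ := cheb K κ θ hθpos hθκ
  have hNW : ∀ S, ((emb r (w S))ᵀ * C₂)ᵀ * P₂ S * ((emb r (w S))ᵀ * C₂) = C₂ᵀ * W S * C₂ := by
    intro S
    have hWS : W S = tens (P₂ S) (w S) := rfl
    rw [hWS, tens_eq, Matrix.transpose_mul, Matrix.transpose_transpose]
    simp only [Matrix.mul_assoc]
  have hNq : ∀ S, ∀ v : Fin r × Ft m b (4 * i) → ℝ, v ⬝ᵥ (C₂ᵀ * W S * C₂) *ᵥ v
      = (((emb r (w S))ᵀ * C₂) *ᵥ v) ⬝ᵥ P₂ S *ᵥ (((emb r (w S))ᵀ * C₂) *ᵥ v) := by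
    intro S v
    rw [← hNW S, ← Matrix.mulVec_mulVec, ← Matrix.mulVec_mulVec, Matrix.dotProduct_mulVec,
      Matrix.vecMul_transpose]
  refine core3 (m := m) (b := b) (t := t) (q := 4 * i) (q' := 4 * i) (K := K) (υ := Fin r)
    (σ := Fin r × Ft m b (4 * i)) (ρ := Fin r) hb hit κ θ (2 * (m : ℝ) ^ 2) H (2 * r) ε φ
    (9 / 8 * r) (16 * (m : ℝ) ^ 3 / (c₀ * γ)) (γ / 2) hκpos hθpos
    (by positivity) (by positivity) (by positivity) (by positivity) (by positivity)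
    (pd m) (pd_bd m hm)
    (fun g hg => pd_fool m t hm ht g hg) h hdeg hh1 hh2
    P₂ hP₂psd hP₂tr (fun S => (emb r (w S))ᵀ * C₂) ?_ ?_ ?_
    (fun x => B₂ * U x) ?_ (fun x => B₂ * Qt x * B₂ᵀ) ?_ ?_ 𝒢 h𝒢card
    ?_ ?_ ?_ hn1 ?_
  · intro a c
    have : (fun S => ((emb r (w S))ᵀ * C₂) a c)
        = ∑ p : Fin r × Ft m b (4 * i), ((if p.1 = a then (1 : ℝ) else 0) * C₂ p c) •
          fun S => w S p.2 := by
      funext S
      simp only [Matrix.mul_apply, Matrix.transpose_apply, emb, Matrix.of_apply,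
        Finset.sum_apply, Pi.smul_apply, smul_eq_mul]
      refine Finset.sum_congr rfl fun p _ => ?_
      split_ifs <;> ring
    rw [this]
    exact Submodule.sum_mem _ fun p _ => Submodule.smul_mem _ _ (hwdeg p.2)
  · intro v
    have h1 := hquad₂ v
    rw [hcardS, Finset.sum_congr rfl (fun S _ => hNq S v)] at h1
    have h2 : ηr * ∑ S, (((emb r (w S))ᵀ * C₂) *ᵥ v) ⬝ᵥ (((emb r (w S))ᵀ * C₂) *ᵥ v)
        ≤ ∑ S, (((emb r (w S))ᵀ * C₂) *ᵥ v) ⬝ᵥ P₂ S *ᵥ (((emb r (w S))ᵀ * C₂) *ᵥ v) := by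
      rw [Finset.mul_sum]
      refine Finset.sum_le_sum fun S _ => ?_
      set u := ((emb r (w S))ᵀ * C₂) *ᵥ v with hu
      have h3 : u ⬝ᵥ P₂ S *ᵥ u = u ⬝ᵥ P' S *ᵥ u + ηr * (u ⬝ᵥ u) := by
        simp only [hP₂, Matrix.add_mulVec, Matrix.smul_mulVec, Matrix.one_mulVec,
          dotProduct_add, dotProduct_smul, smul_eq_mul]
      have h4 : 0 ≤ u ⬝ᵥ P' S *ᵥ u := by
        simpa using (hP'psd S).dotProduct_mulVec_nonneg u
      rw [h3]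
      linarith
    have h5 : ηr * ∑ S, (((emb r (w S))ᵀ * C₂) *ᵥ v) ⬝ᵥ (((emb r (w S))ᵀ * C₂) *ᵥ v)
        ≤ N * (v ⬝ᵥ v) := h2.trans h1
    have h6 : N * (16 * (m : ℝ) ^ 3 / (c₀ * γ)) * (v ⬝ᵥ v) = (N * (v ⬝ᵥ v)) / ηr := by
      rw [hηr]
      field_simp
    rw [h6, le_div_iff₀ hηpos, mul_comm]
    exact h5
  · intro v
    have h1 := hquad₂ v
    rwa [hcardS, Finset.sum_congr rfl (fun S _ => hNq S v)] at h1
  · have h1 : MDeg 0 (fun _ : Fin m × Fin b → Bool => B₂) := fun a c => const_mem_Deg 0 _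
    have h2 : MDeg (4 * i) U := by
      intro a j
      have : (fun x => U x a j) = (if a.1 = j then (1 : ℝ) else 0) • chr a.2.1 := by
        funext x
        simp only [hU, emb, hμ, Matrix.of_apply, Pi.smul_apply, smul_eq_mul, ite_mul, one_mul,
          zero_mul]
      rw [this]
      exact Submodule.smul_mem _ _ (chr_mem_Deg a.2.2)
    have h3 := h1.mul h2
    rw [zero_add] at h3
    exact h3
  · intro x
    have := (hQtpsd x).mul_mul_conjTranspose_same B₂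
    rwa [Matrix.conjTranspose_eq_transpose_of_trivial] at this
  · intro x v
    have h1 : v ⬝ᵥ (B₂ * Qt x * B₂ᵀ) *ᵥ v = (v ᵥ* B₂) ⬝ᵥ Qt x *ᵥ (v ᵥ* B₂) := by
      rw [← Matrix.mulVec_mulVec, ← Matrix.mulVec_mulVec, Matrix.dotProduct_mulVec,
        Matrix.mulVec_transpose]
    have h2 : ∀ j, (v ᵥ* (B₂ * U x)) j = ((v ᵥ* B₂) ᵥ* U x) j := fun j => by
      rw [Matrix.vecMul_vecMul]
    simp only [h1, h2]
    refine (tens_le (hQ'psd x) (μ x) (v ᵥ* B₂)).trans ?_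
    exact mul_le_mul_of_nonneg_right (hQ'tr x) (Finset.sum_nonneg fun _ _ => sq_nonneg _)
  · intro S hS𝒢
    have hS𝒮 : S ∈ 𝒮 := h𝒢𝒮 hS𝒢
    rw [hNW S]
    have h0 : ∀ x, x ∉ 𝒳 → pd m (rs S x) * (C₂ᵀ * W S * C₂ * (B₂ * Qt x * B₂ᵀ)).trace = 0 := by
      intro x hx
      rw [trace_conj _ _ _ _ hCB₂, hWQ, hQ'0 x hx, Matrix.mul_zero, Matrix.trace_zero, zero_mul,
        mul_zero]
    have h1 : ∀ x ∈ 𝒳, pd m (rs S x) * (C₂ᵀ * W S * C₂ * (B₂ * Qt x * B₂ᵀ)).trace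
        ≤ pd m (rs S x) * ((ssum (rs S x) ^ 2 - c₀) * p.eval (ssum (rs S x)) ^ 2) + κ * τ₂ := by
      intro x hx
      rw [trace_conj _ _ _ _ hCB₂, hWQ]
      have e1 := hM₂ S hS𝒮 x hx
      have e2 := pd_bd m hm (rs S x)
      have e3 := hp1' (rs S x)
      have e4 : pd m (rs S x) * (((P₂ S * Q' x).trace - (ssum (rs S x) ^ 2 - c₀))
          * p.eval (ssum (rs S x)) ^ 2) ≤ κ * τ₂ := by
        refine (le_abs_self _).trans ?_
        rw [abs_mul, abs_mul, abs_of_nonneg (sq_nonneg (p.eval (ssum (rs S x))))]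
        have : |(P₂ S * Q' x).trace - (ssum (rs S x) ^ 2 - c₀)| * p.eval (ssum (rs S x)) ^ 2
            ≤ τ₂ * 1 := mul_le_mul e1 e3 (sq_nonneg _) hτ₂0
        rw [mul_one] at this
        exact mul_le_mul e2 this (by positivity) hκpos.le
      nlinarith [e4]
    have h2 : ∑ x, pd m (rs S x) * (C₂ᵀ * W S * C₂ * (B₂ * Qt x * B₂ᵀ)).trace
        = ∑ x ∈ 𝒳, pd m (rs S x) * (C₂ᵀ * W S * C₂ * (B₂ * Qt x * B₂ᵀ)).trace := by
      symm
      exact Finset.sum_subset (Finset.subset_univ _) fun x _ hx => h0 x hx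
    rw [h2]
    refine (Finset.sum_le_sum h1).trans ?_
    rw [Finset.sum_add_distrib, Finset.sum_const, nsmul_eq_mul]
    have h3 := h𝒢 S hS𝒢
    have hcard𝒳 : (𝒳.card : ℝ) ≤ V := by
      rw [← hcardX, ← Finset.card_univ (α := Fin m × Fin b → Bool)]
      exact_mod_cast Finset.card_le_univ 𝒳
    have h5 : κ * τ₂ ≤ c₀ * γ / 2 := by
      have hss : Real.sqrt m * Real.sqrt m = m := Real.mul_self_sqrt (by linarith)
      have hsm : Real.sqrt m * (c₀ * γ / (8 * m)) ≤ c₀ * γ / 8 := by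
        have hsm0 : Real.sqrt m ≤ m := by nlinarith
        rw [mul_div_assoc', div_le_iff₀ (by positivity)]
        calc Real.sqrt m * (c₀ * γ) ≤ m * (c₀ * γ) := mul_le_mul_of_nonneg_right hsm0 hcγ.le
          _ = c₀ * γ / 8 * (8 * m) := by ring
      rw [hκ, hτ₂, mul_add]
      linarith
    have h6 : (𝒳.card : ℝ) * (κ * τ₂) ≤ V * (c₀ * γ / 2) :=
      mul_le_mul hcard𝒳 h5 (by positivity) hVpos.le
    rw [← hV] at h3
    rw [hε, ← hV]
    linarith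
  · have h1 : ∀ x, (B₂ * Qt x * B₂ᵀ).trace
        ≤ 1 / N * ∑ S, ssum (rs S x) ^ 2 * p.eval (ssum (rs S x)) ^ 2 + ξ₂ * (Qt x).trace := by
      intro x
      rw [trace_scaled W B₂ (Qt x) _ _ hBB₂]
      have : ∑ S, (W S * Qt x).trace ≤ ∑ S, ssum (rs S x) ^ 2 * p.eval (ssum (rs S x)) ^ 2 :=
        Finset.sum_le_sum fun S _ => by
          rw [hWQ]
          exact mul_le_mul_of_nonneg_right (hMle₂ S x) (sq_nonneg _)
      have := mul_le_mul_of_nonneg_left this (by positivity : (0 : ℝ) ≤ 1 / N)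
      linarith
    refine (Finset.sum_le_sum fun x _ => h1 x).trans ?_
    rw [Finset.sum_add_distrib, ← Finset.mul_sum, ← Finset.mul_sum, Finset.sum_comm]
    have h2 : ∀ S : Fin m → Fin b,
        ∑ x, ssum (rs S x) ^ 2 * p.eval (ssum (rs S x)) ^ 2
          ≤ V * (16 * L ^ 3 / Real.sqrt m) := by
      intro S
      have e1 := sum_rs S (fun y => ssum y ^ 2 * p.eval (ssum y) ^ 2)
      have e2 : (0 : ℝ) < 2 ^ m := by positivity
      refine le_of_mul_le_mul_left ?_ e2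
      calc (2 : ℝ) ^ m * ∑ x, ssum (rs S x) ^ 2 * p.eval (ssum (rs S x)) ^ 2
          = 2 ^ (m * b) * ∑ y, ssum y ^ 2 * p.eval (ssum y) ^ 2 := e1
        _ ≤ 2 ^ (m * b) * (2 ^ m * (16 * L ^ 3 / Real.sqrt m)) := by gcongr
        _ = 2 ^ m * (V * (16 * L ^ 3 / Real.sqrt m)) := by rw [hV]; ring
    have h3 : 1 / N * ∑ S : Fin m → Fin b, ∑ x, ssum (rs S x) ^ 2 * p.eval (ssum (rs S x)) ^ 2
        ≤ V * (16 * L ^ 3 / Real.sqrt m) := by
      calc _ ≤ 1 / N * ∑ _S : Fin m → Fin b, V * (16 * L ^ 3 / Real.sqrt m) := by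
            refine mul_le_mul_of_nonneg_left (Finset.sum_le_sum fun S _ => h2 S) (by positivity)
        _ = _ := by
            rw [Finset.sum_const, nsmul_eq_mul, Finset.card_univ, hcardS]
            field_simp
    have h4 : V * φ = V * (16 * L ^ 3 / Real.sqrt m) + V * (4 * L ^ 3 / Real.sqrt m) := by
      rw [hφ]; ring
    rw [← hV, h4]
    exact add_le_add h3 hξtr
  · have h1 : ∀ x, ∑ a, ∑ j, (B₂ * U x) a j ^ 2
        ≤ 1 / N * ∑ S, (P₂ S).trace + ξ₂ * fro (U x) := by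
      intro x
      rw [fro_scaled W B₂ (U x) _ _ hBB₂]
      have : ∑ S, ∑ j, (fun a => U x a j) ⬝ᵥ W S *ᵥ (fun a => U x a j) ≤ ∑ S, (P₂ S).trace :=
        Finset.sum_le_sum fun S _ => by
          rw [hW, hU, emb_quad, hwμ]
          have := mul_le_mul_of_nonneg_left (hp1' (rs S x)) (hP₂psd S).trace_nonneg
          linarith
      have := mul_le_mul_of_nonneg_left this (by positivity : (0 : ℝ) ≤ 1 / N)
      linarith
    refine (Finset.sum_le_sum fun x _ => h1 x).trans ?_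
    rw [Finset.sum_add_distrib, Finset.sum_const, nsmul_eq_mul, Finset.card_univ, hcardX,
      ← Finset.mul_sum]
    have h2 : 1 / N * ∑ S, (P₂ S).trace ≤ 9 / 8 * r := by
      calc 1 / N * ∑ S, (P₂ S).trace ≤ 1 / N * (N * (9 / 8 * r)) := by gcongr
        _ = 9 / 8 * r := by field_simp
    have h3 : V * (1 / N * ∑ S, (P₂ S).trace) ≤ V * (9 / 8 * r) :=
      mul_le_mul_of_nonneg_left h2 hVpos.le
    have h4 : V * (1 / 2) ≤ V * (1 / 2 * r) := by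
      refine mul_le_mul_of_nonneg_left ?_ hVpos.le
      linarith
    rw [← hV]
    linarith
  · exact nums2c hm1 hb hmi' c₀ γ hc₀ hc₁ hγ₀ hγ₁ κ θ hθpos hκpos hratio hnum

end SDX
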