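import Mathlib

/-!
# Averaging over permutations
-/

set_option autoImplicit false

open scoped BigOperators

namespace SDX.h97

/-- the sum over all permutations depends only on the cardinality -/
theorem sum_perm {n : ℕ} (G : Finset (Fin n) → ℝ) (T T' : Finset (Fin n))
    (h : T.card = T'.card) :
    ∑ π : Equiv.Perm (Fin n), G (T.map π.toEmbedding)
      = ∑ π : Equiv.Perm (Fin n), G (T'.map π.toEmbedding) := by
  classical
  obtain ⟨σ, hσ⟩ : ∃ σ : Equiv.Perm (Fin n), T.map σ.toEmbedding = T' := by
    let g : {x // x ∈ T} ≃ {x // x ∈ T'} := Finset.equivOfCardEq h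
    refine ⟨g.extendSubtype, ?_⟩
    refine Finset.eq_of_subset_of_card_le ?_ (by rw [Finset.card_map, h])
    intro y hy
    obtain ⟨x, hx, rfl⟩ := Finset.mem_map.1 hy
    exact g.extendSubtype_mem x hx
  rw [← Equiv.sum_comp (Equiv.mulRight σ)]
  refine Finset.sum_congr rfl fun π _ => ?_
  congr 1
  rw [← hσ, Finset.map_map]
  rfl

/-- some permutation keeps the density of a good family on all sets `gr f` -/
theorem avg_perm {n m : ℕ} {F : Type} [Fintype F] (gr : F → Finset (Fin n))
    (hgr : ∀ f, (gr f).card = m) (Good : Finset (Fin n) → Prop) [DecidablePred Good] (η : ℝ)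
    (h : η * (n.choose m : ℝ) ≤
      (((Finset.univ : Finset (Fin n)).powersetCard m).filter Good).card) :
    ∃ π : Equiv.Perm (Fin n), η * Fintype.card F ≤
      ((Finset.univ : Finset F).filter fun f => Good ((gr f).map π.toEmbedding)).card := by
  classical
  by_contra hcon
  push Not at hcon
  have hF : Nonempty F := by
    by_contra hemp
    rw [not_nonempty_iff] at hemp
    have := hcon 1
    simp at this
  obtain ⟨f₀⟩ := hF
  set G : Finset (Fin n) → ℝ := fun T => if Good T then 1 else 0 with hG
  set N : ℝ := ∑ π : Equiv.Perm (Fin n), G ((gr f₀).map π.toEmbedding) with hN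
  have hT : ∀ T : Finset (Fin n), T.card = m →
      ∑ π : Equiv.Perm (Fin n), G (T.map π.toEmbedding) = N := fun T h =>
    sum_perm G T (gr f₀) (by rw [h, hgr])
  -- the sum over all sets
  have h1 : (n.choose m : ℝ) * N = (Fintype.card (Equiv.Perm (Fin n)) : ℝ) *
      (((Finset.univ : Finset (Fin n)).powersetCard m).filter Good).card := by
    have e1 : ∑ T ∈ (Finset.univ : Finset (Fin n)).powersetCard m,
        ∑ π : Equiv.Perm (Fin n), G (T.map π.toEmbedding) = (n.choose m : ℝ) * N := by
      rw [Finset.sum_congr rfl fun T hT' => hT T (Finset.mem_powersetCard.1 hT').2,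
        Finset.sum_const, Finset.card_powersetCard, Finset.card_univ, Fintype.card_fin,
        nsmul_eq_mul]
    rw [← e1, Finset.sum_comm]
    have e2 : ∀ π : Equiv.Perm (Fin n),
        ∑ T ∈ (Finset.univ : Finset (Fin n)).powersetCard m, G (T.map π.toEmbedding)
        = (((Finset.univ : Finset (Fin n)).powersetCard m).filter Good).card := by
      intro π
      rw [← Finset.sum_boole]
      refine Finset.sum_bij (fun T _ => T.map π.toEmbedding) ?_ ?_ ?_ ?_
      · intro T hT'
        rw [Finset.mem_powersetCard] at hT' ⊢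
        exact ⟨Finset.subset_univ _, by rw [Finset.card_map]; exact hT'.2⟩
      · intro T _ T' _ h
        exact Finset.map_injective _ h
      · intro T hT'
        rw [Finset.mem_powersetCard] at hT'
        refine ⟨T.map π.symm.toEmbedding, ?_, ?_⟩
        · rw [Finset.mem_powersetCard]
          exact ⟨Finset.subset_univ _, by rw [Finset.card_map]; exact hT'.2⟩
        · rw [Finset.map_map]
          convert Finset.map_refl (s := T) using 2
          ext x
          simp
      · intro T _
        rfl
    rw [Finset.sum_congr rfl fun π _ => e2 π, Finset.sum_const, Finset.card_univ, nsmul_eq_mul]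
  -- the sum over all maps
  have h2 : ∑ π : Equiv.Perm (Fin n),
      (((Finset.univ : Finset F).filter fun f => Good ((gr f).map π.toEmbedding)).card : ℝ)
      = (Fintype.card F : ℝ) * N := by
    have e1 : ∀ π : Equiv.Perm (Fin n),
        (((Finset.univ : Finset F).filter fun f => Good ((gr f).map π.toEmbedding)).card : ℝ)
        = ∑ f : F, G ((gr f).map π.toEmbedding) := fun π => by
      rw [← Finset.sum_boole]
    rw [Finset.sum_congr rfl fun π _ => e1 π, Finset.sum_comm,
      Finset.sum_congr rfl fun f _ => hT (gr f) (hgr f), Finset.sum_const, Finset.card_univ,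
      nsmul_eq_mul]
  have h3 : ∑ π : Equiv.Perm (Fin n),
      (((Finset.univ : Finset F).filter fun f => Good ((gr f).map π.toEmbedding)).card : ℝ)
      < ∑ _π : Equiv.Perm (Fin n), η * Fintype.card F :=
    Finset.sum_lt_sum_of_nonempty ⟨1, Finset.mem_univ _⟩ fun π _ => hcon π
  rw [h2, Finset.sum_const, Finset.card_univ, nsmul_eq_mul] at h3
  have hm : m ≤ n := by
    have := Finset.card_le_univ (gr f₀)
    rwa [hgr, Fintype.card_fin] at this
  have hc : (0 : ℝ) < n.choose m := by exact_mod_cast Nat.choose_pos hm
  have hFc : (0 : ℝ) < Fintype.card F := by exact_mod_cast Fintype.card_pos_iff.2 ⟨f₀⟩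
  have hP : (0 : ℝ) < Fintype.card (Equiv.Perm (Fin n)) := by exact_mod_cast Fintype.card_pos
  have h4 : N < (Fintype.card (Equiv.Perm (Fin n)) : ℝ) * η := by
    by_contra h5
    push Not at h5
    have := mul_le_mul_of_nonneg_left h5 hFc.le
    linarith
  have h5 : (n.choose m : ℝ) * N < (n.choose m : ℝ) * ((Fintype.card (Equiv.Perm (Fin n)) : ℝ) * η) :=
    mul_lt_mul_of_pos_left h4 hc
  have h6 := mul_le_mul_of_nonneg_left h hP.le
  rw [h1] at h5
  linarith

end SDX.h97
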