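import Mathlib
import Pool.Agent.Helper97.SDX.Main3
import Pool.Agent.Helper97.SDX.Factor4
import Pool.Agent.Helper74.SDX.Numbers3

/-!
# Randomised semidefinite relaxations of MAX-CUT, arbitrary encoding
-/

set_option autoImplicit false

open scoped BigOperators Matrix

namespace SDX

/-- number of edges of `G` between the two classes of `x` -/
noncomputable def cutVal {n : ℕ} (G : SimpleGraph (Fin n)) (x : Fin n → Bool) : ℝ :=
  (Nat.card {p : Fin n × Fin n // p.1 < p.2 ∧ G.Adj p.1 p.2 ∧ x p.1 ≠ x p.2} : ℝ)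

/-- complete graph on `S`, the other vertices are isolated -/
def clique {n : ℕ} (S : Finset (Fin n)) : SimpleGraph (Fin n) where
  Adj i j := i ∈ S ∧ j ∈ S ∧ i ≠ j
  symm := ⟨fun _ _ h => ⟨h.2.1, h.1, h.2.2.symm⟩⟩
  loopless := ⟨fun _ h => h.2.2 rfl⟩

/-- semidefinite relaxation of size `r` of MAX-CUT on `n` vertices: `k` free real variables and an
`r × r` matrix variable, subject to arbitrary affine equations (`space`), and for every graph an
arbitrary affine objective function -/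
structure Relaxation (n r : ℕ) where
  k : ℕ
  space : AffineSubspace ℝ ((Fin k → ℝ) × Matrix (Fin r) (Fin r) ℝ)
  obj : SimpleGraph (Fin n) → ((Fin k → ℝ) × Matrix (Fin r) (Fin r) ℝ) →ᵃ[ℝ] ℝ

/-- the feasible points -/
def Relaxation.feasible {n r : ℕ} (R : Relaxation n r) :
    Set ((Fin R.k → ℝ) × Matrix (Fin r) (Fin r) ℝ) :=
  {p | p ∈ R.space ∧ p.2.PosSemidef}

/-- the cut `x` is represented by a feasible point: for every graph the objective function has
there the value of the cut -/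
def Relaxation.Represents {n r : ℕ} (R : Relaxation n r) (x : Fin n → Bool) : Prop :=
  ∃ p ∈ R.feasible, ∀ G, R.obj G p = cutVal G x

/-- the optimum of the relaxation for `G` is less than the maximum cut of `G` plus `δ` -/
def Relaxation.Solves {n r : ℕ} (R : Relaxation n r) (δ : ℝ) (G : SimpleGraph (Fin n)) : Prop :=
  ∀ p ∈ R.feasible, ∃ x : Fin n → Bool, R.obj G p < cutVal G x + δ

namespace h97

theorem cut_clique {n : ℕ} (T : Finset (Fin n)) (x : Fin n → Bool) :
    4 * cutVal (clique T) x = (T.card : ℝ) ^ 2 - (∑ i ∈ T, sg (x i)) ^ 2 := by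
  classical
  have h1 : cutVal (clique T) x
      = ∑ i ∈ T, ∑ j ∈ T, if i < j ∧ x i ≠ x j then (1 : ℝ) else 0 := by
    rw [cutVal, Nat.card_eq_fintype_card, Fintype.card_subtype]
    have : (Finset.univ.filter (fun p : Fin n × Fin n =>
        p.1 < p.2 ∧ (clique T).Adj p.1 p.2 ∧ x p.1 ≠ x p.2))
        = (T ×ˢ T).filter (fun p => p.1 < p.2 ∧ x p.1 ≠ x p.2) := by
      ext p
      rw [Finset.mem_filter, Finset.mem_filter, Finset.mem_product]
      constructor
      · rintro ⟨-, h1, h2, h4⟩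
        exact ⟨⟨h2.1, h2.2.1⟩, h1, h4⟩
      · rintro ⟨⟨h2, h3⟩, h1, h4⟩
        exact ⟨Finset.mem_univ _, h1, ⟨h2, h3, h1.ne⟩, h4⟩
    rw [this, ← Finset.sum_product', ← Finset.sum_boole]
  have h2 : ∀ i j : Fin n, 1 - sg (x i) * sg (x j)
      = 2 * ((if i < j ∧ x i ≠ x j then (1 : ℝ) else 0)
        + (if j < i ∧ x j ≠ x i then (1 : ℝ) else 0)) := by
    intro i j
    rcases lt_trichotomy i j with h | h | h
    · have h' : ¬ j < i := not_lt.mpr h.le
      simp only [h, h', true_and, false_and, if_false, add_zero]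
      cases x i <;> cases x j <;> norm_num [sg]
    · subst h
      simp only [lt_irrefl, false_and, if_false, add_zero, mul_zero]
      cases x i <;> norm_num [sg]
    · have h' : ¬ i < j := not_lt.mpr h.le
      simp only [h, h', true_and, false_and, if_false, zero_add]
      cases x i <;> cases x j <;> norm_num [sg]
  have h3 : ∑ i ∈ T, ∑ j ∈ T, (1 - sg (x i) * sg (x j))
      = (T.card : ℝ) ^ 2 - (∑ i ∈ T, sg (x i)) ^ 2 := by
    simp only [Finset.sum_sub_distrib, Finset.sum_const, nsmul_eq_mul, mul_one,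
      ← Finset.mul_sum, ← Finset.sum_mul]
    ring
  have h4 : ∑ i ∈ T, ∑ j ∈ T, (1 - sg (x i) * sg (x j)) = 4 * cutVal (clique T) x := by
    simp only [h2, ← Finset.mul_sum, Finset.sum_add_distrib]
    rw [Finset.sum_comm (f := fun i j => if j < i ∧ x j ≠ x i then (1 : ℝ) else 0), ← h1]
    ring
  rw [← h4, h3]

/-- the image of the graph of `S` -/
def gr {n m b : ℕ} (e : Fin m × Fin b ↪ Fin n) (S : Fin m → Fin b) : Finset (Fin n) :=
  Finset.univ.map ⟨fun j => e (j, S j), fun _ _ h => congrArg Prod.fst (e.injective h)⟩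

theorem gr_card {n m b : ℕ} (e : Fin m × Fin b ↪ Fin n) (S : Fin m → Fin b) :
    (gr e S).card = m := by
  rw [gr, Finset.card_map, Finset.card_univ, Fintype.card_fin]

/-- extension by `false` -/
noncomputable def ext0 {n m b : ℕ} (e : Fin m × Fin b ↪ Fin n) (x : Fin m × Fin b → Bool) :
    Fin n → Bool := Function.extend e x (fun _ => false)

theorem gr_sum {n m b : ℕ} (e : Fin m × Fin b ↪ Fin n) (S : Fin m → Fin b)
    (x : Fin m × Fin b → Bool) : ∑ i ∈ gr e S, sg (ext0 e x i) = ssum (rs S x) := by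
  rw [gr, Finset.sum_map, ssum]
  refine Finset.sum_congr rfl fun j _ => ?_
  rw [ext0, rs]
  congr 1
  exact e.injective.extend_apply _ _ _

/-- averaging -/
theorem average {Ω X Y : Type} [Fintype Ω] [Fintype X] [Nonempty X] [Fintype Y] [Nonempty Y]
    (p : Ω → ℝ) (hp : ∀ ω, 0 ≤ p ω) (hp1 : ∑ ω, p ω = 1)
    (A : Ω → Finset X) (B : Ω → Finset Y) [DecidableEq X] [DecidableEq Y] (α β γ : ℝ)
    (hA : ∀ x, α ≤ ∑ ω, if x ∈ A ω then p ω else 0)
    (hB : ∀ y, β ≤ ∑ ω, if y ∈ B ω then p ω else 0) (hαβ : 1 + γ ≤ α + β) :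
    ∃ ω, γ * Fintype.card X ≤ (A ω).card ∧ γ * Fintype.card Y ≤ (B ω).card := by
  classical
  have hX : (0 : ℝ) < Fintype.card X := by exact_mod_cast Fintype.card_pos
  have hY : (0 : ℝ) < Fintype.card Y := by exact_mod_cast Fintype.card_pos
  have h1 : α ≤ ∑ ω, p ω * ((A ω).card / Fintype.card X) := by
    have e1 : (Fintype.card X : ℝ) * α ≤ ∑ x : X, ∑ ω, if x ∈ A ω then p ω else 0 := by
      calc (Fintype.card X : ℝ) * α = ∑ _x : X, α := by simp
        _ ≤ _ := Finset.sum_le_sum fun x _ => hA x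
    rw [Finset.sum_comm] at e1
    have e2 : ∀ ω, (∑ x : X, if x ∈ A ω then p ω else 0) = p ω * (A ω).card := by
      intro ω
      rw [Finset.sum_ite_mem, Finset.univ_inter, Finset.sum_const, nsmul_eq_mul, mul_comm]
    simp only [e2] at e1
    have e3 : ∑ ω, p ω * ((A ω).card / Fintype.card X)
        = (∑ ω, p ω * ((A ω).card : ℝ)) / Fintype.card X := by
      rw [Finset.sum_div]
      exact Finset.sum_congr rfl fun ω _ => by ring
    rw [e3, le_div_iff₀ hX]
    linarith
  have h2 : β ≤ ∑ ω, p ω * ((B ω).card / Fintype.card Y) := by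
    have e1 : (Fintype.card Y : ℝ) * β ≤ ∑ y : Y, ∑ ω, if y ∈ B ω then p ω else 0 := by
      calc (Fintype.card Y : ℝ) * β = ∑ _y : Y, β := by simp
        _ ≤ _ := Finset.sum_le_sum fun y _ => hB y
    rw [Finset.sum_comm] at e1
    have e2 : ∀ ω, (∑ y : Y, if y ∈ B ω then p ω else 0) = p ω * (B ω).card := by
      intro ω
      rw [Finset.sum_ite_mem, Finset.univ_inter, Finset.sum_const, nsmul_eq_mul, mul_comm]
    simp only [e2] at e1
    have e3 : ∑ ω, p ω * ((B ω).card / Fintype.card Y)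
        = (∑ ω, p ω * ((B ω).card : ℝ)) / Fintype.card Y := by
      rw [Finset.sum_div]
      exact Finset.sum_congr rfl fun ω _ => by ring
    rw [e3, le_div_iff₀ hY]
    linarith
  by_contra hcon
  push Not at hcon
  have h3 : ∀ ω, ((A ω).card : ℝ) / Fintype.card X + (B ω).card / Fintype.card Y < 1 + γ := by
    intro ω
    have a1 : ((A ω).card : ℝ) / Fintype.card X ≤ 1 := by
      rw [div_le_one hX]
      exact_mod_cast Finset.card_le_univ (A ω)
    have b1 : ((B ω).card : ℝ) / Fintype.card Y ≤ 1 := by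
      rw [div_le_one hY]
      exact_mod_cast Finset.card_le_univ (B ω)
    by_cases h : γ * Fintype.card X ≤ (A ω).card
    · have h' := hcon ω h
      have : ((B ω).card : ℝ) / Fintype.card Y < γ := by
        rw [div_lt_iff₀ hY]
        exact h'
      linarith
    · push Not at h
      have : ((A ω).card : ℝ) / Fintype.card X < γ := by
        rw [div_lt_iff₀ hX]
        exact h
      linarith
  have h4 : ∑ ω, p ω * (((A ω).card : ℝ) / Fintype.card X + (B ω).card / Fintype.card Y)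
      < 1 + γ := by
    have hex : ∃ ω, 0 < p ω := by
      by_contra hno
      push Not at hno
      have : ∑ ω, p ω ≤ 0 := Finset.sum_nonpos fun ω _ => hno ω
      linarith
    obtain ⟨ω₀, hω₀⟩ := hex
    calc ∑ ω, p ω * (((A ω).card : ℝ) / Fintype.card X + (B ω).card / Fintype.card Y)
        < ∑ ω, p ω * (1 + γ) := by
          refine Finset.sum_lt_sum (fun ω _ => mul_le_mul_of_nonneg_left (h3 ω).le (hp ω))
            ⟨ω₀, Finset.mem_univ _, mul_lt_mul_of_pos_left (h3 ω₀) hω₀⟩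
      _ = 1 + γ := by rw [← Finset.sum_mul, hp1, one_mul]
  simp only [mul_add, Finset.sum_add_distrib] at h4
  linarith

end h97

open h97

open Classical in
theorem final4 (δ η : ℝ) (hδ : δ < 1 / 4) (hη : 0 < η) :
    ∃ c > 0, ∃ n₀ : ℕ, ∀ (n r : ℕ) (Ω : Type) [Fintype Ω] (p : Ω → ℝ)
      (R : Ω → Relaxation n r) (α : ℝ),
      n₀ ≤ n → (r : ℝ) ≤ Real.exp (c * Real.sqrt n) → (∀ ω, 0 ≤ p ω) → ∑ ω, p ω = 1 →
      (∀ x : Fin n → Bool, α ≤ ∑ ω with (R ω).Represents x, p ω) →
      ∃ S : Finset (Fin n), Odd S.card ∧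
        ∑ ω with (R ω).Solves δ (clique S), p ω < 1 - α + η := by
  set c₀ : ℝ := 1 - 4 * max δ 0 with hc₀
  have h0 : 0 < c₀ := by
    have : max δ 0 < 1 / 4 := max_lt hδ (by norm_num)
    linarith
  have h1 : c₀ ≤ 1 := by
    have := le_max_right δ 0
    linarith
  have h2 : c₀ ≤ 1 - 4 * δ := by
    have := le_max_left δ 0
    linarith
  set γ : ℝ := min η 1 with hγ
  have hγ0 : 0 < γ := lt_min hη one_pos
  have hγ1 : γ ≤ 1 := min_le_right _ _
  have hγη : γ ≤ η := min_le_left _ _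
  have hν : 0 < c₀ * γ ^ 3 := by positivity
  have hν1 : c₀ * γ ^ 3 ≤ 1 := by
    calc c₀ * γ ^ 3 ≤ 1 * 1 := mul_le_mul h1 (pow_le_one₀ hγ0.le hγ1) (by positivity) zero_le_one
      _ = 1 := one_mul 1
  obtain ⟨c, hc, n₀, hn⟩ := numbers3 (c₀ * γ ^ 3) hν hν1
  refine ⟨c, hc, n₀, fun n r Ω _ p R α hn0 hr hp hp1 hrel => ?_⟩
  obtain ⟨m, b, t, i, K, hm, hb, hmb, ht, hit, hmi, hbm, hnum⟩ := hn n hn0
  have hmpos : (0 : ℝ) < m := by exact_mod_cast hm.pos
  obtain ⟨hK, hnum2⟩ := hnum (r + 1) (Nat.succ_pos r) (by push_cast; linarith)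
  by_contra hcon
  push Not at hcon
  -- the embedding
  have hcard : Fintype.card (Fin m × Fin b) ≤ Fintype.card (Fin n) := by
    rw [Fintype.card_prod, Fintype.card_fin, Fintype.card_fin, Fintype.card_fin]
    exact hmb
  obtain ⟨e⟩ : Nonempty (Fin m × Fin b ↪ Fin n) := Function.Embedding.nonempty_of_card_le hcard
  have : Nonempty (Fin m → Fin b) := ⟨fun _ => ⟨0, hb⟩⟩
  -- averaging
  obtain ⟨ω, hω𝒳, hω𝒮⟩ := average p hp hp1
    (fun ω => Finset.univ.filter fun x : Fin m × Fin b → Bool => (R ω).Represents (ext0 e x))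
    (fun ω => Finset.univ.filter fun S : Fin m → Fin b => (R ω).Solves δ (clique (gr e S)))
    α (1 - α + η) γ
    (fun x => by
      have := hrel (ext0 e x)
      rw [Finset.sum_filter] at this
      simpa only [Finset.mem_filter, Finset.mem_univ, true_and] using this)
    (fun S => by
      have := hcon (gr e S) (by rw [gr_card]; exact hm)
      rw [Finset.sum_filter] at this
      simpa only [Finset.mem_filter, Finset.mem_univ, true_and] using this)
    (by linarith)
  set 𝒳 := Finset.univ.filter fun x : Fin m × Fin b → Bool => (R ω).Represents (ext0 e x)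
    with h𝒳
  set 𝒮 := Finset.univ.filter fun S : Fin m → Fin b => (R ω).Solves δ (clique (gr e S))
    with h𝒮
  have hrep : ∀ x ∈ 𝒳, ∃ q ∈ (R ω).feasible, ∀ G, (R ω).obj G q = cutVal G (ext0 e x) :=
    fun x hx => (Finset.mem_filter.1 hx).2
  let pt : (Fin m × Fin b → Bool) → (Fin (R ω).k → ℝ) × Matrix (Fin r) (Fin r) ℝ :=
    fun x => if h : x ∈ 𝒳 then (hrep x h).choose else 0
  have hpt : ∀ x ∈ 𝒳, pt x ∈ (R ω).feasible ∧ ∀ G, (R ω).obj G (pt x) = cutVal G (ext0 e x) := by
    intro x hx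
    have := (hrep x hx).choose_spec
    simp only [pt, hx, dif_pos]
    exact this
  let ℓ : (Fin m → Fin b) → ((Fin (R ω).k → ℝ) × Matrix (Fin r) (Fin r) ℝ) →ᵃ[ℝ] ℝ :=
    fun S => AffineMap.const ℝ _ ((m : ℝ) ^ 2) - (4 : ℝ) • (R ω).obj (clique (gr e S))
  have hℓ : ∀ S q, ℓ S q = (m : ℝ) ^ 2 - 4 * (R ω).obj (clique (gr e S)) q := fun S q => rfl
  have hτ : 0 < c₀ * γ / (8 * Real.sqrt m) := by
    have : 0 < Real.sqrt m := Real.sqrt_pos.2 hmpos
    positivity
  obtain ⟨P, Q, hP, hQ, hP0, hQ0, hPQ⟩ := factor4 (R ω).space c₀ 𝒳 pt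
    (fun x hx => (hpt x hx).1) 𝒮 ℓ
    (fun S _ x hx => by
      rw [hℓ, (hpt x hx).2, cut_clique, gr_card, gr_sum]
      ring)
    (fun S hS q hq hq2 => by
      obtain ⟨x, hx⟩ := (Finset.mem_filter.1 hS).2 q ⟨hq, hq2⟩
      have e1 := cut_clique (gr e S) x
      rw [gr_card] at e1
      have e2 : 1 ≤ (∑ i ∈ gr e S, sg (x i)) ^ 2 := by
        have : ∑ i ∈ gr e S, sg (x i) = ssum (fun j => x (e (j, S j))) := by
          rw [gr, Finset.sum_map, ssum]
          rfl
        rw [this, ← sq_abs]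
        exact one_le_pow₀ (ssum_abs hm _)
      rw [hℓ]
      linarith)
    _ hτ
  refine main3 (r := r + 1) (K := K) (t := t) (i := i) hm hb (Nat.succ_pos r) ht hit hmi c₀ γ
    (c₀ * γ / (8 * Real.sqrt m)) h0 h1 hγ0 hγ1 hτ.le ?_ 𝒳 ?_ 𝒮 ?_ P hP hP0 Q hQ hQ0 hPQ hK hbm hnum2
  · have : 0 < Real.sqrt m := Real.sqrt_pos.2 hmpos
    rw [mul_div_assoc', mul_comm, mul_div_assoc, div_self (by positivity), mul_one]
  · have : (Fintype.card (Fin m × Fin b → Bool) : ℝ) = 2 ^ (m * b) := by simp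
    rwa [this] at hω𝒳
  · have : (Fintype.card (Fin m → Fin b) : ℝ) = (b : ℝ) ^ m := by simp
    rwa [this] at hω𝒮

end SDX
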